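import Mathlib
import Pool.Agent.Lib.MP_89bcae_ag.Xs.Defs

/-!
# The surfaces `y ^ 2 = x ((x - a(t)) ^ m - t)`
-/

open Polynomial IsDedekindDomain

open scoped Classical

namespace Pool.Agent.Lib.MP_89bcae_ag.Xm

open Pool.Agent.Lib.MP_89bcae_ag.Ze

section

variable {k : Type} [Field k]

/-- The polynomial `x ((x - a(t)) ^ m - t)`, in `x` with coefficients in `k[t]`. -/
noncomputable def surf (m : ℕ) (a : k[X]) : k[X][X] := X * ((X - C a) ^ m - C X)

/-- The polynomial `a(s ^ m) + s`. -/
noncomputable def alpha (m : ℕ) (a : k[X]) : k[X] := a.comp (X ^ m) + X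

/-- The number `m` and the degree of `a` are even, their product is at least `8`, the number `m` is not divisible by the
characteristic, the polynomial `a(s ^ m) + s` has no multiple roots, and all the even permutations of its roots in `F` are
induced by automorphisms of `F` over `k`. -/
structure IsExample (F : Type) [Field F] [Algebra k F] (m : ℕ) (a : k[X]) : Prop where
  cast_ne_zero : (m : k) ≠ 0
  even_m : Even m
  even : Even a.natDegree
  eight_le : 8 ≤ m * a.natDegree
  separable : (alpha m a).Separable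
  galois : ∀ g : Equiv.Perm ((alpha m a).rootSet F), g ∈ alternatingGroup ((alpha m a).rootSet F) →
    ∃ σ : F ≃ₐ[k] F, ∀ s : (alpha m a).rootSet F, σ (s : F) = g s

lemma two_ne_zero_of_even {m : ℕ} (hm : (m : k) ≠ 0) (hm' : Even m) : (2 : k) ≠ 0 := by
  obtain ⟨n, rfl⟩ := hm'
  intro h
  apply hm
  rw [Nat.cast_add, ← two_mul, h, zero_mul]

lemma IsExample.two_ne_zero {F : Type} [Field F] [Algebra k F] {m : ℕ} {a : k[X]} (h : IsExample F m a) :
    (2 : k) ≠ 0 := two_ne_zero_of_even h.cast_ne_zero h.even_m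

lemma IsExample.natDegree_ne_zero {F : Type} [Field F] [Algebra k F] {m : ℕ} {a : k[X]} (h : IsExample F m a) :
    a.natDegree ≠ 0 := by
  intro h0
  have := h.eight_le
  rw [h0, mul_zero] at this
  omega

lemma IsExample.two_le {F : Type} [Field F] [Algebra k F] {m : ℕ} {a : k[X]} (h : IsExample F m a) : 2 ≤ m := by
  have h1 : m ≠ 0 := by
    rintro rfl
    exact h.cast_ne_zero Nat.cast_zero
  have h2 := h.even_m
  rcases m with _ | _ | m
  · exact absurd rfl h1
  · exact absurd h2 (by decide)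
  · omega

end

lemma exists_zeta {F : Type} [Field F] [IsAlgClosed F] {m : ℕ} (hm : (m : F) ≠ 0) : ∃ ζ : Fˣ, IsPrimitiveRoot ζ m := by
  have h1 : NeZero (m : F) := ⟨hm⟩
  obtain ⟨ζ, hζ⟩ := HasEnoughRootsOfUnity.exists_primitiveRoot F m
  have h2 : m ≠ 0 := by
    rintro rfl
    exact hm Nat.cast_zero
  exact ⟨(hζ.isUnit h2).unit, IsPrimitiveRoot.coe_units_iff.1 hζ⟩

section

variable {F L : Type} [Field F] [Field L] [Algebra F[X] L] [IsFractionRing F[X] L]

lemma expand_inj (m : ℕ) [NeZero m] : Function.Injective ((algebraMap F[X] L).comp (expand F m : F[X] →+* F[X])) :=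
  (IsFractionRing.injective F[X] L).comp (expand_injective (Nat.pos_of_ne_zero (NeZero.ne m)))

/-- The homomorphism of `L = F(t)` which maps `t` to `t ^ m`. -/
noncomputable def ex (F L : Type) [Field F] [Field L] [Algebra F[X] L] [IsFractionRing F[X] L] (m : ℕ) [NeZero m] :
    L →+* L :=
  IsFractionRing.lift (expand_inj (F := F) (L := L) m)

lemma ex_algebraMap (m : ℕ) [NeZero m] (q : F[X]) :
    ex F L m (algebraMap F[X] L q) = algebraMap F[X] L (expand F m q) :=
  IsFractionRing.lift_algebraMap _ q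

lemma comp_inj (ζ : Fˣ) : Function.Injective ((algebraMap F[X] L).comp (compRingHom (C (ζ : F) * X : F[X]))) := by
  refine (IsFractionRing.injective F[X] L).comp fun p q h => ?_
  have h1 : (p.comp (C (ζ : F) * X)).comp (C ((ζ⁻¹ : Fˣ) : F) * X) =
      (q.comp (C (ζ : F) * X)).comp (C ((ζ⁻¹ : Fˣ) : F) * X) :=
    congrArg (fun u => u.comp (C ((ζ⁻¹ : Fˣ) : F) * X)) h
  have h2 : (C (ζ : F) * X : F[X]).comp (C ((ζ⁻¹ : Fˣ) : F) * X) = X := by
    rw [mul_comp, C_comp, X_comp, ← mul_assoc, ← C_mul, Units.mul_inv, C_1, one_mul]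
  rwa [comp_assoc, comp_assoc, h2, comp_X, comp_X] at h1

/-- The automorphism of `L = F(t)` which maps `t` to `ζ t`. -/
noncomputable def rot (F L : Type) [Field F] [Field L] [Algebra F[X] L] [IsFractionRing F[X] L] (ζ : Fˣ) : L →+* L :=
  IsFractionRing.lift (comp_inj (F := F) (L := L) ζ)

lemma rot_algebraMap (ζ : Fˣ) (q : F[X]) :
    rot F L ζ (algebraMap F[X] L q) = algebraMap F[X] L (q.comp (C (ζ : F) * X)) :=
  IsFractionRing.lift_algebraMap _ q

end

section

variable {k F L : Type} [Field k] [Field F] [Algebra k F] [Field L] [Algebra F[X] L] [IsFractionRing F[X] L]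

/-- The polynomial `a(t)`, in `F[t]`. -/
noncomputable def aF (F : Type) [Field F] [Algebra k F] (a : k[X]) : F[X] := a.map (algebraMap k F)

/-- The polynomial `a(s ^ m) + s`, in `F[s]`. -/
noncomputable def alF (F : Type) [Field F] [Algebra k F] (m : ℕ) (a : k[X]) : F[X] := expand F m (aF F a) + X

lemma alF_eq (m : ℕ) (a : k[X]) : alF F m a = (alpha m a).map (algebraMap k F) := by
  unfold alF alpha aF
  rw [Polynomial.map_add, map_X, Polynomial.map_comp, Polynomial.map_pow, map_X, expand_eq_comp_X_pow]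

/-- The polynomial `x ((x - a(t)) ^ m - t)` over `L = F(t)`. -/
lemma poly_surf (m : ℕ) (a : k[X]) : poly F L (surf m a) =
    X * ((X - C (algebraMap F[X] L (aF F a))) ^ m - C (algebraMap F[X] L X)) := by
  unfold poly surf Zs.ext aF
  simp only [Polynomial.map_mul, Polynomial.map_sub, Polynomial.map_pow, map_X, map_C, coe_mapRingHom]

/-- The component `x = 0`. -/
noncomputable def pi1 (F L : Type) [Field F] [Algebra k F] [Field L] [Algebra F[X] L] [IsFractionRing F[X] L] (m : ℕ)
    (a : k[X]) : AdjoinRoot (poly F L (surf m a)) →+* L :=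
  AdjoinRoot.lift (RingHom.id L) 0 (by
    rw [poly_surf, eval₂_mul, eval₂_X, zero_mul])

lemma pi1_mk (m : ℕ) (a : k[X]) (A : L[X]) : pi1 F L m a (AdjoinRoot.mk _ A) = A.eval 0 := by
  unfold pi1
  rw [AdjoinRoot.lift_mk, eval₂_id]

/-- The component `(x - a(t)) ^ m = t`, with the parameter `s`, where `t = s ^ m` and `x = a(s ^ m) + s`. -/
noncomputable def pi0 (F L : Type) [Field F] [Algebra k F] [Field L] [Algebra F[X] L] [IsFractionRing F[X] L] (m : ℕ)
    [NeZero m] (a : k[X]) : AdjoinRoot (poly F L (surf m a)) →+* L :=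
  AdjoinRoot.lift (ex F L m) (algebraMap F[X] L (alF F m a)) (by
    rw [poly_surf, eval₂_mul, eval₂_sub, eval₂_pow, eval₂_sub, eval₂_X, eval₂_C, eval₂_C, ex_algebraMap, ex_algebraMap,
      expand_X, alF, map_add, add_sub_cancel_left, ← map_pow, sub_self, mul_zero])

lemma pi0_mk (m : ℕ) [NeZero m] (a : k[X]) (A : L[X]) :
    pi0 F L m a (AdjoinRoot.mk _ A) = A.eval₂ (ex F L m) (algebraMap F[X] L (alF F m a)) := by
  unfold pi0
  rw [AdjoinRoot.lift_mk]

end

end Pool.Agent.Lib.MP_89bcae_ag.Xm
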