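import Mathlib
import Pool.Agent.Lib.MP_89bcae_ag.Xm.Defs

/-!
# The branch curve of the surface `y ^ 2 = x ((x - a(t)) ^ m - t)`
-/

open Polynomial

open scoped Classical

namespace Pool.Agent.Lib.MP_89bcae_ag.Xm

open Pool.Agent.Lib.MP_89bcae_ag.Ze

/-- A power with a constant subtracted is monic of degree `m`. -/
lemma isBranch_surf_monic {R : Type} [CommRing R] [Nontrivial R] {m : ℕ} (hm : m ≠ 0) (a b : R) :
    ((X - C a) ^ m - C b : R[X]).Monic ∧ ((X - C a) ^ m - C b : R[X]).natDegree = m := by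
  have h1 : ((X - C a) ^ m : R[X]).Monic := (monic_X_sub_C a).pow m
  have h2 : ((X - C a) ^ m : R[X]).natDegree = m := by
    rw [(monic_X_sub_C a).natDegree_pow, natDegree_X_sub_C, mul_one]
  have h3 : ((X - C a) ^ m : R[X]).degree = m := by
    rw [degree_eq_natDegree h1.ne_zero, h2]
  have h4 : (C b : R[X]).degree < ((X - C a) ^ m : R[X]).degree := by
    rw [h3]
    exact lt_of_le_of_lt degree_C_le (by exact_mod_cast Nat.pos_of_ne_zero hm)
  exact ⟨h1.sub_of_left h4, by rw [natDegree_sub_C, h2]⟩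

/-- The polynomial `(- a(t)) ^ m - t` is not zero. -/
lemma isBranch_surf_ne {F : Type} [Field F] {m : ℕ} (hm : Even m) (A : F[X]) : (-A) ^ m - X ≠ 0 := by
  intro h
  have h1 : ((-A) ^ m).natDegree = (X : F[X]).natDegree := by rw [sub_eq_zero.1 h]
  rw [natDegree_pow, natDegree_X, natDegree_neg] at h1
  obtain ⟨n, rfl⟩ := hm
  have h2 : 2 ∣ 1 := ⟨n * A.natDegree, by rw [← h1]; ring⟩
  norm_num at h2

/-- The polynomial `x ((x - a) ^ m - b)` is separable, if `m`, `b` and `(- a) ^ m - b` are not zero. -/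
lemma isBranch_surf_separable {L : Type} [Field L] {m : ℕ} (hm : (m : L) ≠ 0) {a b : L} (hb : b ≠ 0)
    (hab : (-a) ^ m - b ≠ 0) : (X * ((X - C a) ^ m - C b) : L[X]).Separable := by
  refine separable_X.mul ?_ ?_
  · have hd : derivative ((X - C a) ^ m - C b : L[X]) = C (m : L) * (X - C a) ^ (m - 1) := by
      rw [derivative_sub, derivative_C, sub_zero, derivative_X_sub_C_pow]
    have hu : (C (m : L) * C (m : L)⁻¹ : L[X]) = 1 := by
      rw [← C_mul, mul_inv_cancel₀ hm, C_1]
    have hv : (C b * C b⁻¹ : L[X]) = 1 := by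
      rw [← C_mul, mul_inv_cancel₀ hb, C_1]
    have hp : (X - C a : L[X]) ^ m = (X - C a) * (X - C a) ^ (m - 1) := by
      rw [mul_pow_sub_one]
      rintro rfl
      exact hm Nat.cast_zero
    refine ⟨-C b⁻¹, C b⁻¹ * (C (m : L)⁻¹ * (X - C a)), ?_⟩
    rw [hd, hp]
    linear_combination (C b⁻¹ * ((X - C a) * (X - C a) ^ (m - 1))) * hu + hv
  · rw [irreducible_X.coprime_iff_not_dvd, X_dvd_iff, coeff_zero_eq_eval_zero, eval_sub, eval_pow, eval_sub,
      eval_X, eval_C, eval_C, zero_sub]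
    exact hab

variable {k F L : Type} [Field k] [Field F] [Algebra k F] [Field L] [Algebra F[X] L] [IsFractionRing F[X] L] {m : ℕ}

/-- M3 (file `Xm/Bra.lean`). -/
theorem isBranch_surf (hm : (m : k) ≠ 0) (hm' : Even m) (a : k[X]) : IsBranch 2 F L (surf m a) := by
  have hm0 : m ≠ 0 := by
    rintro rfl
    exact hm Nat.cast_zero
  have h := isBranch_surf_monic (R := k[X]) hm0 a X
  refine ⟨monic_X.mul h.1, ?_, ?_⟩
  · have h3 : (surf m a).natDegree = 1 + m := by
      unfold surf
      rw [monic_X.natDegree_mul h.1, natDegree_X, h.2]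
    rw [h3, Nat.coprime_two_right, add_comm]
    exact hm'.add_one
  · rw [poly_surf]
    have hmF : (m : F) ≠ 0 := by
      have h := (map_ne_zero (algebraMap k F)).2 hm
      rwa [map_natCast] at h
    have hinj := IsFractionRing.injective F[X] L
    have hmL : (m : L) ≠ 0 := by
      have h : algebraMap F[X] L (C (m : F)) ≠ 0 := (map_ne_zero_iff _ hinj).2 (C_ne_zero.2 hmF)
      rwa [map_natCast, map_natCast] at h
    refine isBranch_surf_separable hmL ((map_ne_zero_iff _ hinj).2 X_ne_zero) ?_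
    rw [← map_neg, ← map_pow, ← map_sub]
    exact (map_ne_zero_iff _ hinj).2 (isBranch_surf_ne hm' _)

end Pool.Agent.Lib.MP_89bcae_ag.Xm
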