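import Mathlib
import Pool.Agent.Lib.MP_89bcae_ag.Xm.Defs
import Pool.Agent.Lib.MP_89bcae_ag.Xs.Gal

/-!
# The Galois group and the orders of the zeros
-/

open Polynomial IsDedekindDomain

open scoped Classical

namespace Pool.Agent.Lib.MP_89bcae_ag.Xm

open Pool.Agent.Lib.MP_89bcae_ag.Ze

open Pool.Agent.Lib.MP_89bcae_ag.Xs (ord Or cHom cHom_mk hom_ext_L cR cR_algebraMap cR_C cR_X comp_algebraMap cR_poly
  cAut cAut_apply cAut_mem)

section

variable {k F L : Type} [Field k] [Field F] [Algebra k F] [Field L] [Algebra F[X] L] [IsFractionRing F[X] L]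
  {m : ℕ} [NeZero m]

lemma cR_ex (σ : F ≃+* F) : (ex F L m).comp (cR L σ) = (cR L σ).comp (ex F L m) := by
  refine hom_ext_L (F := F) (fun c => ?_) ?_
  · rw [RingHom.comp_apply, RingHom.comp_apply, cR_C, ex_algebraMap, ex_algebraMap, expand_C, expand_C, cR_C]
  · rw [RingHom.comp_apply, RingHom.comp_apply, cR_X, ex_algebraMap, expand_X, map_pow, map_pow, cR_X]

lemma cR_alF (a : k[X]) (σ : F ≃ₐ[k] F) :
    cR L (σ : F ≃+* F) (algebraMap F[X] L (alF F m a)) = algebraMap F[X] L (alF F m a) := by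
  rw [cR_algebraMap, alF_eq, Polynomial.map_map, comp_algebraMap]

lemma pi0_cAut (a : k[X]) (σ : F ≃ₐ[k] F) (u : AdjoinRoot (poly F L (surf m a))) :
    pi0 F L m a (cAut L (surf m a) σ u) = cR L (σ : F ≃+* F) (pi0 F L m a u) := by
  obtain ⟨A, rfl⟩ := AdjoinRoot.mk_surjective u
  rw [cAut_apply, cHom_mk, pi0_mk, pi0_mk, eval₂_map, cR_ex, hom_eval₂, cR_alF]

theorem exists_galois (a : k[X]) (σ : F ≃ₐ[k] F) :
    ∃ γ ∈ galois 2 k F (poly F L (surf m a)), ∀ (u : AdjoinRoot (poly F L (surf m a))) (r : F),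
      ord (σ r) (pi0 F L m a (γ u)) = ord r (pi0 F L m a u) := by
  refine ⟨cAut L (surf m a) σ, cAut_mem _ σ, fun u r => ?_⟩
  rw [pi0_cAut]
  unfold ord
  exact congrArg (fun v => -(WithZero.log v)) (Sup.valuation_coefL L (σ : F ≃+* F) r (pi0 F L m a u))

end

end Pool.Agent.Lib.MP_89bcae_ag.Xm
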