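import Mathlib
import Pool.Agent.Lib.MP_89bcae_ag.Xm.Defs

/-!
# The components of the branch curve
-/

open Polynomial IsDedekindDomain

open scoped Classical

namespace Pool.Agent.Lib.MP_89bcae_ag.Xm

open Pool.Agent.Lib.MP_89bcae_ag.Ze

section

variable {F L : Type} [Field F] [Field L] [Algebra F[X] L] [IsFractionRing F[X] L] {m : ℕ} [NeZero m]

omit [NeZero m] in
private lemma expand_indep (hm : 0 < m) {P : ℕ → F[X]} (h : ∑ i ∈ Finset.range m, expand F m (P i) * X ^ i = 0) :
    ∀ i < m, P i = 0 := by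
  intro i hi
  ext j
  have h1 := congrArg (fun p : F[X] => p.coeff (m * j + i)) h
  simp only [finsetSum_coeff, coeff_zero] at h1
  rw [Finset.sum_eq_single i] at h1
  · rw [coeff_mul_X_pow, mul_comm, coeff_expand_mul hm] at h1
    rw [h1, coeff_zero]
  · intro i' hi' hne
    rw [coeff_mul_X_pow']
    split_ifs with h2
    · rw [coeff_expand hm, if_neg]
      intro h3
      have h4 := Finset.mem_range.1 hi'
      have h5 : (m * j + i) % m = i' % m := by
        obtain ⟨q, hq⟩ := h3
        rw [show m * j + i = m * q + i' by omega, Nat.mul_add_mod]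
      rw [Nat.mul_add_mod, Nat.mod_eq_of_lt hi, Nat.mod_eq_of_lt h4] at h5
      exact hne h5.symm
    · rfl
  · intro h2
    exact absurd (Finset.mem_range.2 hi) h2

/-- The powers of `s` of exponents smaller than `m` are independent over the field of the functions of `s ^ m`. -/
lemma ex_indep {c : ℕ → L} (h : ∑ i ∈ Finset.range m, ex F L m (c i) * algebraMap F[X] L X ^ i = 0) :
    ∀ i < m, c i = 0 := by
  have hm : 0 < m := Nat.pos_of_ne_zero (NeZero.ne m)
  have hinj : Function.Injective (algebraMap F[X] L) := IsFractionRing.injective F[X] L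
  obtain ⟨b, hb⟩ := IsLocalization.exist_integer_multiples (nonZeroDivisors F[X]) (Finset.range m) c
  have hb0 : algebraMap F[X] L (b : F[X]) ≠ 0 := by
    rw [Ne, _root_.map_eq_zero_iff _ hinj]
    exact nonZeroDivisors.ne_zero b.2
  have hP : ∀ i, ∃ P : F[X], i < m → algebraMap F[X] L P = algebraMap F[X] L (b : F[X]) * c i := by
    intro i
    by_cases hi : i < m
    · obtain ⟨P, hP⟩ := hb i (Finset.mem_range.2 hi)
      refine ⟨P, fun _ => ?_⟩
      rw [hP]
      show (b : F[X]) • c i = _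
      rw [Algebra.smul_def]
    · exact ⟨0, fun h => absurd h hi⟩
  choose P hP using hP
  have h1 : algebraMap F[X] L (∑ i ∈ Finset.range m, expand F m (P i) * X ^ i) = 0 := by
    rw [map_sum]
    have h2 : ∀ i ∈ Finset.range m, algebraMap F[X] L (expand F m (P i) * X ^ i) =
        ex F L m (algebraMap F[X] L (b : F[X])) * (ex F L m (c i) * algebraMap F[X] L X ^ i) := by
      intro i hi
      rw [map_mul, map_pow, ← ex_algebraMap, hP i (Finset.mem_range.1 hi), map_mul]
      ring
    rw [Finset.sum_congr rfl h2, ← Finset.mul_sum, h, mul_zero]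
  rw [_root_.map_eq_zero_iff _ hinj] at h1
  intro i hi
  have h2 := hP i hi
  rw [expand_indep hm h1 i hi, map_zero] at h2
  exact (mul_eq_zero.1 h2.symm).resolve_left hb0

end

section

variable {k F L : Type} [Field k] [Field F] [Algebra k F] [Field L] [Algebra F[X] L] [IsFractionRing F[X] L]
  {m : ℕ}

/-- The factor of degree `m`. -/
noncomputable def hyp (F L : Type) [Field F] [Algebra k F] [Field L] [Algebra F[X] L] (m : ℕ) (a : k[X]) : L[X] :=
  (X - C (algebraMap F[X] L (aF F a))) ^ m - C (algebraMap F[X] L X)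

lemma poly_eq (a : k[X]) : poly F L (surf m a) = X * hyp F L m a := poly_surf m a

omit [IsFractionRing F[X] L] in
lemma hyp_monic (hm : m ≠ 0) (a : k[X]) : (hyp F L m a).Monic := by
  unfold hyp
  apply Monic.sub_of_left ((monic_X_sub_C _).pow m)
  rw [degree_pow, degree_X_sub_C]
  refine degree_C_le.trans_lt ?_
  rw [nsmul_one]
  exact_mod_cast Nat.pos_of_ne_zero hm

omit [IsFractionRing F[X] L] in
lemma hyp_natDegree (a : k[X]) : (hyp F L m a).natDegree = m := by
  unfold hyp
  rw [natDegree_sub_C, natDegree_pow, natDegree_X_sub_C, mul_one]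

lemma hyp_eval_zero (hm : 2 ≤ m) (a : k[X]) : (hyp F L m a).eval 0 ≠ 0 := by
  unfold hyp
  rw [eval_sub, eval_pow, eval_sub, eval_X, eval_C, eval_C, zero_sub, ← map_neg, ← map_pow, ← map_sub]
  intro h
  rw [_root_.map_eq_zero_iff _ (IsFractionRing.injective F[X] L)] at h
  have h1 := congrArg natDegree (sub_eq_zero.1 h)
  rw [natDegree_pow, natDegree_X] at h1
  have h2 := Nat.eq_one_of_mul_eq_one_right h1
  omega

lemma hyp_eval₂ [NeZero m] (a : k[X]) : (hyp F L m a).eval₂ (ex F L m) (algebraMap F[X] L (alF F m a)) = 0 := by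
  unfold hyp
  rw [eval₂_sub, eval₂_pow, eval₂_sub, eval₂_X, eval₂_C, eval₂_C, ex_algebraMap, ex_algebraMap,
    expand_X, alF, map_add, add_sub_cancel_left, ← map_pow, sub_self]

lemma alF_val [NeZero m] (a : k[X]) : algebraMap F[X] L (alF F m a) =
    ex F L m (algebraMap F[X] L (aF F a)) + algebraMap F[X] L X := by
  rw [alF, map_add, ex_algebraMap]

/-- The kernel of `pi0`. -/
lemma hyp_dvd [NeZero m] {a : k[X]} {A : L[X]} (h : A.eval₂ (ex F L m) (algebraMap F[X] L (alF F m a)) = 0) :
    hyp F L m a ∣ A := by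
  have hm := hyp_monic (F := F) (L := L) (NeZero.ne m) a
  have h1 := modByMonic_add_div A (hyp F L m a)
  have h2 : (A %ₘ hyp F L m a).eval₂ (ex F L m) (algebraMap F[X] L (alF F m a)) = 0 := by
    have h3 := congrArg (fun P : L[X] => P.eval₂ (ex F L m) (algebraMap F[X] L (alF F m a))) h1
    simp only [eval₂_add, eval₂_mul, hyp_eval₂, zero_mul, add_zero] at h3
    rw [h3]
    exact h
  have hdeg : (A %ₘ hyp F L m a).natDegree < m := by
    have := natDegree_modByMonic_lt A hm (by
      intro h4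
      have h5 := hyp_natDegree (F := F) (L := L) (m := m) a
      rw [h4, natDegree_one] at h5
      exact NeZero.ne m h5.symm)
    rwa [hyp_natDegree] at this
  set R : L[X] := A %ₘ hyp F L m a with hR
  set c : L := algebraMap F[X] L (aF F a) with hc
  have h3 : R = (R.comp (X + C c)).comp (X - C c) := by
    rw [comp_assoc, add_comp, X_comp, C_comp, sub_add_cancel, comp_X]
  have h4 : (R.comp (X + C c)).natDegree < m := by
    rw [natDegree_comp, natDegree_X_add_C, mul_one]
    exact hdeg
  have h5 : (R.comp (X + C c)).eval₂ (ex F L m) (algebraMap F[X] L X) = 0 := by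
    rw [eval₂_comp, eval₂_add, eval₂_X, eval₂_C, add_comm, ← alF_val]
    exact h2
  rw [eval₂_eq_sum_range' _ h4] at h5
  have h6 : R.comp (X + C c) = 0 := by
    ext i
    rw [coeff_zero]
    by_cases hi : i < m
    · exact ex_indep h5 i hi
    · exact coeff_eq_zero_of_natDegree_lt (by omega)
  rw [h6, zero_comp] at h3
  rw [← h1, h3, zero_add]
  exact dvd_mul_right _ _

lemma pi_injective [NeZero m] (hm : 2 ≤ m) {a : k[X]} {u : AdjoinRoot (poly F L (surf m a))} (h1 : pi1 F L m a u = 0)
    (h0 : pi0 F L m a u = 0) : u = 0 := by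
  obtain ⟨A, rfl⟩ := AdjoinRoot.mk_surjective u
  rw [pi1_mk] at h1
  rw [pi0_mk] at h0
  obtain ⟨B, rfl⟩ := hyp_dvd h0
  rw [eval_mul] at h1
  have h2 : B.eval 0 = 0 := (mul_eq_zero.1 h1).resolve_left (hyp_eval_zero hm a)
  have h3 : X ∣ B := by
    rw [X_dvd_iff, coeff_zero_eq_eval_zero]
    exact h2
  obtain ⟨D, rfl⟩ := h3
  rw [AdjoinRoot.mk_eq_zero, poly_eq]
  exact ⟨D, by ring⟩

lemma pi0_surjective [NeZero m] (a : k[X]) : Function.Surjective (pi0 F L m a) := by
  intro z
  have hmon : (poly F L (surf m a)).Monic := by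
    rw [poly_eq]
    exact monic_X.mul (hyp_monic (NeZero.ne m) a)
  have hfin : Module.Finite L (AdjoinRoot (poly F L (surf m a))) := hmon.finite_adjoinRoot
  have hart : IsArtinianRing (AdjoinRoot (poly F L (surf m a))) := IsArtinianRing.of_finite L _
  have hprime : (RingHom.ker (pi0 F L m a)).IsPrime := RingHom.ker_isPrime _
  have hmax : (RingHom.ker (pi0 F L m a)).IsMaximal := IsArtinianRing.isMaximal_of_isPrime _
  have hX : ∀ P : F[X], ∃ u, pi0 F L m a u = algebraMap F[X] L P := by
    let φ : F[X] →+* AdjoinRoot (poly F L (surf m a)) :=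
      eval₂RingHom (((AdjoinRoot.of (poly F L (surf m a))).comp (algebraMap F[X] L)).comp C)
        (AdjoinRoot.mk _ (X - C (algebraMap F[X] L (aF F a))))
    have hφ : (pi0 F L m a).comp φ = algebraMap F[X] L := by
      refine Polynomial.ringHom_ext (fun c => ?_) ?_
      · show pi0 F L m a (φ (C c)) = _
        have h1 : φ (C c) = AdjoinRoot.mk _ (C (algebraMap F[X] L (C c))) := by
          show (C c : F[X]).eval₂ _ _ = _
          rw [eval₂_C]
          rfl
        rw [h1, pi0_mk, eval₂_C, ex_algebraMap, expand_C]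
      · show pi0 F L m a (φ X) = _
        have h1 : φ X = AdjoinRoot.mk _ (X - C (algebraMap F[X] L (aF F a))) := by
          show (X : F[X]).eval₂ _ _ = _
          rw [eval₂_X]
        rw [h1, pi0_mk, eval₂_sub, eval₂_X, eval₂_C, alF_val, add_sub_cancel_left]
    exact fun P => ⟨φ P, RingHom.congr_fun hφ P⟩
  obtain ⟨P, Q, hQ, rfl⟩ := IsFractionRing.div_surjective (A := F[X]) z
  obtain ⟨u, hu⟩ := hX P
  obtain ⟨v, hv⟩ := hX Q
  have hQ0 : algebraMap F[X] L Q ≠ 0 := by
    rw [Ne, _root_.map_eq_zero_iff _ (IsFractionRing.injective F[X] L)]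
    exact nonZeroDivisors.ne_zero hQ
  have hv0 : v ∉ RingHom.ker (pi0 F L m a) := by
    rw [RingHom.mem_ker, hv]
    exact hQ0
  obtain ⟨w, i, hi, hw⟩ := hmax.exists_inv hv0
  have h1 := congrArg (pi0 F L m a) hw
  rw [map_add, map_mul, RingHom.mem_ker.1 hi, add_zero, hv, map_one] at h1
  refine ⟨u * w, ?_⟩
  rw [map_mul, hu, eq_div_iff hQ0, mul_assoc, h1, mul_one]

lemma pi1_surjective (a : k[X]) : Function.Surjective (pi1 F L m a) := by
  intro y
  exact ⟨AdjoinRoot.mk _ (C y), by rw [pi1_mk, eval_C]⟩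

lemma pi_surjective [NeZero m] (hm : 2 ≤ m) (a : k[X]) (y z : L) :
    ∃ u : AdjoinRoot (poly F L (surf m a)), pi1 F L m a u = y ∧ pi0 F L m a u = z := by
  obtain ⟨u, hu⟩ := pi0_surjective (F := F) (L := L) (m := m) a z
  refine ⟨u + AdjoinRoot.mk _ (C ((y - pi1 F L m a u) / (hyp F L m a).eval 0) * hyp F L m a), ?_, ?_⟩
  · rw [map_add, pi1_mk, eval_mul, eval_C, div_mul_cancel₀ _ (hyp_eval_zero hm a)]
    ring
  · rw [map_add, pi0_mk, eval₂_mul, hyp_eval₂, mul_zero, add_zero, hu]

end

end Pool.Agent.Lib.MP_89bcae_ag.Xm
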