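import Mathlib
import Pool.Agent.Lib.MP_89bcae_ag.Xs.Ord
import Pool.Agent.Lib.MP_89bcae_ag.Xm.Comp

/-!
# The charts of the surface `y ^ 2 = x ((x - a(t)) ^ m - t)`
-/

open Polynomial IsDedekindDomain

open scoped Classical

namespace Pool.Agent.Lib.MP_89bcae_ag.Xm

open Pool.Agent.Lib.MP_89bcae_ag.Ze

open Pool.Agent.Lib.MP_89bcae_ag.Zp (IsSmoothAt)

open Pool.Agent.Lib.MP_89bcae_ag.Xs (ord Or ord_eq_of_valuation ord_pow algebraMap_mem_Or valuation_lt_one)

private lemma cht_natDegree {R : Type} [CommRing R] [Nontrivial R] {m : ℕ} (hm : m ≠ 0) (b e : R) :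
    (X * ((X - C b) ^ m - C e) : R[X]).natDegree = m + 1 := by
  have h1 : ((X - C b) ^ m : R[X]).Monic := (monic_X_sub_C b).pow m
  have h2 : ((X - C b) ^ m : R[X]).natDegree = m := by
    rw [(monic_X_sub_C b).natDegree_pow, natDegree_X_sub_C, mul_one]
  have h3 : ((X - C b) ^ m - C e : R[X]).natDegree = m := by
    rw [natDegree_sub_C, h2]
  have h4 : ((X - C b) ^ m - C e : R[X]).Monic := by
    apply h1.sub_of_left
    rw [degree_eq_natDegree h1.ne_zero, h2]
    exact lt_of_le_of_lt degree_C_le (by exact_mod_cast Nat.pos_of_ne_zero hm)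
  rw [monic_X.natDegree_mul h4, natDegree_X, h3, add_comm]

section

variable {k F L : Type} [Field k] [Field F] [Algebra k F] [Field L] [Algebra F[X] L] [IsFractionRing F[X] L]
  {m : ℕ} [NeZero m]

/-- The polynomial of the surface in the coordinate `t = τ + s`. -/
private noncomputable def chtPoly (m : ℕ) (b : F[X]) (s : F) : F[X][X] :=
  X * ((X - C (b.comp (X + C s))) ^ m - C (X + C s))

private lemma chtPoly_zero (m : ℕ) (b : F[X]) (s : F) :
    (chtPoly m b s).map (evalRingHom 0) = X * ((X - C (b.eval s)) ^ m - C s) := by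
  unfold chtPoly
  rw [Polynomial.map_mul, Polynomial.map_sub, Polynomial.map_pow, Polynomial.map_sub, map_X,
    map_C, map_C, coe_evalRingHom, eval_comp, eval_add, eval_X, eval_C, zero_add]

private lemma isChart_aff (a : k[X]) (s : F) :
    IsChart 2 F (poly F L (surf m a)) (chtPoly m (aF F a) s) (algebraMap F[X] L (X - C s)) 0 1 := by
  refine ⟨Or.inl ⟨s, rfl⟩, ?_, one_ne_zero, 1, one_ne_zero, ?_⟩
  · intro h
    have h1 := cht_natDegree (NeZero.ne m) ((aF F a).eval s) s
    rw [← chtPoly_zero, h, natDegree_zero] at h1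
    omega
  · have ev : ∀ q : F[X], (q.comp (X + C s)).eval₂ ((algebraMap F[X] L).comp C)
        (algebraMap F[X] L (X - C s)) = algebraMap F[X] L q := by
      intro q
      rw [← hom_eval₂]
      congr 1
      change (q.comp (X + C s)).comp (X - C s) = q
      rw [comp_assoc, add_comp, X_comp, C_comp, sub_add_cancel, comp_X]
    have ev' : (X + C s : F[X]).eval₂ ((algebraMap F[X] L).comp C)
        (algebraMap F[X] L (X - C s)) = algebraMap F[X] L X := by
      have := ev X
      rwa [X_comp] at this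
    rw [poly_surf, C_0, C_1, one_mul, zero_add, comp_X, one_pow, C_1, one_mul]
    unfold chtPoly
    rw [Polynomial.map_mul, Polynomial.map_sub, Polynomial.map_pow, Polynomial.map_sub, map_X,
      map_C, map_C, coe_eval₂RingHom, ev, ev']

omit [NeZero m] in
private lemma eval_alF (a : k[X]) (r : F) : (alF F m a).eval r = (aF F a).eval (r ^ m) + r := by
  unfold alF
  rw [eval_add, expand_eval, eval_X]

theorem even_pi0 (hm : (m : k) ≠ 0) {a : k[X]} {u : (AdjoinRoot (poly F L (surf m a)))ˣ}
    (hu : u ∈ unramified 2 F (poly F L (surf m a))) {r : F} (hr : (alF F m a).eval r ≠ 0) :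
    Even (ord r (pi0 F L m a u)) := by
  have hmF : (m : F) ≠ 0 := by
    intro h
    apply hm
    apply (algebraMap k F).injective
    rw [map_natCast, map_zero]
    exact h
  have hm0 : m ≠ 0 := NeZero.ne m
  obtain ⟨c, hc, hcc⟩ := hu.2 _ _ 0 1 (isChart_aff a (r ^ m))
  have hc0 : c = 0 := hc (by rw [chtPoly_zero, poly_surf, cht_natDegree hm0, cht_natDegree hm0])
  have halg : ∀ y : L, pi0 F L m a (algebraMap L (AdjoinRoot (poly F L (surf m a))) y) = ex F L m y := by
    intro y
    rw [AdjoinRoot.algebraMap_eq, ← AdjoinRoot.mk_C, pi0_mk, eval₂_C]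
  have hroot : pi0 F L m a (AdjoinRoot.root (poly F L (surf m a))) = algebraMap F[X] L (alF F m a) := by
    rw [← AdjoinRoot.mk_X, pi0_mk, eval₂_X]
  have hr0 := eval_alF (m := m) a r
  have hcentre : IsCentre F (poly F L (surf m a)) (pi0 F L m a) (Or L r) (chtPoly m (aF F a) (r ^ m))
      (algebraMap F[X] L (X - C (r ^ m))) 0 1 ((alF F m a).eval r) := by
    refine ⟨fun c => ?_, ?_, ?_, ?_⟩
    · rw [halg, ex_algebraMap, expand_C]
      exact algebraMap_mem_Or r _
    · rw [halg, ex_algebraMap, map_sub, expand_X, expand_C]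
      apply valuation_lt_one
      rw [eval_sub, eval_pow, eval_X, eval_C, sub_self]
    · rw [map_zero, sub_zero, hroot, map_one, map_one, div_one, halg, ex_algebraMap, expand_C,
        ← map_sub (algebraMap F[X] L)]
      apply valuation_lt_one
      rw [eval_sub, eval_C, sub_self]
    · intro _
      by_cases h : r ^ (m - 1) = 0
      · right
        have hm1 : m - 1 ≠ 0 := by
          intro h1
          rw [h1, pow_zero] at h
          exact one_ne_zero h
        have hr1 : r = 0 := (pow_eq_zero_iff hm1).1 h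
        unfold chtPoly
        rw [hr1] at hr0 hr ⊢
        rw [hr0] at hr
        simp only [ne_eq, hm0, not_false_eq_true, zero_pow, add_zero] at hr hr0 ⊢
        rw [hr0]
        simp [derivative_mul, derivative_pow, hr, hm1]
      · left
        rw [chtPoly_zero, hr0]
        simp [derivative_mul, derivative_pow]
        rw [hr0] at hr
        exact ⟨hr, hmF, fun h1 => by_contra fun h2 => h (by rw [h1, zero_pow h2])⟩
  obtain ⟨v, hv⟩ := hcc L (pi0 F L m a) (pi0_surjective a) (Or L r) _ hcentre
  rw [hc0, zpow_zero, one_mul] at hv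
  have hne : pi0 F L m a u ≠ 0 := (u.isUnit.map (pi0 F L m a)).ne_zero
  have h3 := ord_eq_of_valuation hne (pow_ne_zero 2 v.ne_zero) hv
  rw [h3, ord_pow]
  exact (even_two_mul (ord r (v : L)))

theorem even_pi1 {a : k[X]} {u : (AdjoinRoot (poly F L (surf m a)))ˣ}
    (hu : u ∈ unramified 2 F (poly F L (surf m a))) {r : F} (hr : (-(aF F a).eval r) ^ m ≠ r) :
    Even (ord r (pi1 F L m a u)) := by
  have hm0 : m ≠ 0 := NeZero.ne m
  obtain ⟨c, hc, hcc⟩ := hu.2 _ _ 0 1 (isChart_aff a r)
  have hc0 : c = 0 := hc (by rw [chtPoly_zero, poly_surf, cht_natDegree hm0, cht_natDegree hm0])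
  have halg : ∀ y : L, pi1 F L m a (algebraMap L (AdjoinRoot (poly F L (surf m a))) y) = y := by
    intro y
    rw [AdjoinRoot.algebraMap_eq, ← AdjoinRoot.mk_C, pi1_mk, eval_C]
  have hroot : pi1 F L m a (AdjoinRoot.root (poly F L (surf m a))) = 0 := by
    rw [← AdjoinRoot.mk_X, pi1_mk, eval_X]
  have hcentre : IsCentre F (poly F L (surf m a)) (pi1 F L m a) (Or L r) (chtPoly m (aF F a) r)
      (algebraMap F[X] L (X - C r)) 0 1 0 := by
    refine ⟨fun c => ?_, ?_, ?_, ?_⟩
    · rw [halg]
      exact algebraMap_mem_Or r _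
    · rw [halg]
      apply valuation_lt_one
      rw [eval_sub, eval_X, eval_C, sub_self]
    · rw [map_zero, sub_zero, hroot, zero_div, halg, C_0, map_zero, sub_zero, map_zero]
      exact zero_lt_one
    · intro _
      left
      rw [chtPoly_zero]
      simp [derivative_mul, derivative_pow]
      exact sub_ne_zero.2 hr
  obtain ⟨v, hv⟩ := hcc L (pi1 F L m a) (pi1_surjective a) (Or L r) _ hcentre
  rw [hc0, zpow_zero, one_mul] at hv
  have hne : pi1 F L m a u ≠ 0 := (u.isUnit.map (pi1 F L m a)).ne_zero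
  have h3 := ord_eq_of_valuation hne (pow_ne_zero 2 v.ne_zero) hv
  rw [h3, ord_pow]
  exact (even_two_mul (ord r (v : L)))

end

end Pool.Agent.Lib.MP_89bcae_ag.Xm
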