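import Mathlib
import Pool.Agent.Lib.MP_89bcae_ag.Xm.Defs

/-!
# The chart at infinity of the surface `y ^ 2 = x ((x - a(t)) ^ m - t)`
-/

open Polynomial IsDedekindDomain

open scoped Classical

namespace Pool.Agent.Lib.MP_89bcae_ag.Xm

open Pool.Agent.Lib.MP_89bcae_ag.Ze

open Pool.Agent.Lib.MP_89bcae_ag.Zp (IsSmoothAt)

private lemma chtI_natDegree {R : Type} [CommRing R] [Nontrivial R] {m : ℕ} (hm : m ≠ 0) (b e : R) :
    (X * ((X - C b) ^ m - C e) : R[X]).natDegree = m + 1 := by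
  have h1 : ((X - C b) ^ m : R[X]).Monic := (monic_X_sub_C b).pow m
  have h2 : ((X - C b) ^ m : R[X]).natDegree = m := by
    rw [(monic_X_sub_C b).natDegree_pow, natDegree_X_sub_C, mul_one]
  have h3 : ((X - C b) ^ m - C e : R[X]).natDegree = m := by
    rw [natDegree_sub_C, h2]
  have h4 : ((X - C b) ^ m - C e : R[X]).Monic := by
    apply h1.sub_of_left
    rw [degree_eq_natDegree h1.ne_zero, h2]
    exact lt_of_le_of_lt degree_C_le (by exact_mod_cast Nat.pos_of_ne_zero hm)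
  rw [monic_X.natDegree_mul h4, natDegree_X, h3, add_comm]

section

variable {k F L : Type} [Field k] [Field F] [Algebra k F] [Field L] [Algebra F[X] L] [IsFractionRing F[X] L]
  {m : ℕ} [NeZero m]

theorem inf_pi1 {a : k[X]} (ha : a.natDegree ≠ 0) (ha' : Even a.natDegree) {u : (AdjoinRoot (poly F L (surf m a)))ˣ}
    (hu : u ∈ unramified 2 F (poly F L (surf m a))) (O : ValuationSubring L)
    (hO : ∀ c : F, algebraMap F[X] L (C c) ∈ O) (hO' : O.valuation ((algebraMap F[X] L X)⁻¹) < 1) :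
    ∃ w : Lˣ, O.valuation (pi1 F L m a u) = O.valuation ((w : L) ^ 2) := by
  have hm : m ≠ 0 := NeZero.ne m
  obtain ⟨N, hN⟩ : ∃ N, N = a.natDegree := ⟨_, rfl⟩
  have hNF : (aF F a).natDegree = N := by
    rw [hN]
    exact natDegree_map_eq_of_injective (algebraMap k F).injective a
  obtain ⟨M, hM⟩ : ∃ M, N = M + M := by rw [hN]; exact ha'
  have hN0 : N ≠ 0 := by rw [hN]; exact ha
  obtain ⟨T, hT⟩ : ∃ T, T = algebraMap F[X] L X := ⟨_, rfl⟩
  have hT0 : T ≠ 0 := by
    rw [hT]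
    intro h
    rw [IsFractionRing.to_map_eq_zero_iff] at h
    exact X_ne_zero h
  obtain ⟨A, hA⟩ : ∃ A, A = algebraMap F[X] L (aF F a) := ⟨_, rfl⟩
  have ev : ∀ q : F[X], q.eval₂ ((algebraMap F[X] L).comp C) T = algebraMap F[X] L q := by
    intro q
    rw [hT, ← hom_eval₂, eval₂_C_X]
  obtain ⟨A', hA'⟩ : ∃ A', A' = (aF F a).reverse.eval₂ ((algebraMap F[X] L).comp C) T⁻¹ := ⟨_, rfl⟩
  have hAA : A' * T ^ N = A := by
    let _ : Invertible T := invertibleOfNonzero hT0
    have h := eval₂_reverse_mul_pow ((algebraMap F[X] L).comp C) T (aF F a)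
    rw [invOf_eq_inv, hNF, ev, ← hA', ← hA] at h
    exact h
  obtain ⟨φ, hφ⟩ : ∃ φ : F[X][X], φ = X * ((X - C (aF F a).reverse) ^ m - C (X ^ (m * N - 1))) :=
    ⟨_, rfl⟩
  obtain ⟨l, hl⟩ : ∃ l : F, l = (aF F a).leadingCoeff := ⟨_, rfl⟩
  have hl0 : l ≠ 0 := by
    rw [hl, Ne, leadingCoeff_eq_zero]
    intro h
    rw [h, natDegree_zero] at hNF
    exact hN0 hNF.symm
  have hmN1 : 2 ≤ m * N := by
    have h1 : 2 ≤ N := by omega
    exact h1.trans (Nat.le_mul_of_pos_left N (Nat.pos_of_ne_zero hm))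
  have hmN : m * N - 1 ≠ 0 := by omega
  have hφ0 : φ.map (evalRingHom 0) = X * ((X - C l) ^ m - C (0 : F)) := by
    rw [hφ, Polynomial.map_mul, Polynomial.map_sub, Polynomial.map_pow, Polynomial.map_sub, map_X,
      map_C, map_C, coe_evalRingHom, eval_pow, eval_X, zero_pow hmN,
      ← coeff_zero_eq_eval_zero, coeff_zero_reverse, ← hl]
  have hφd : (φ.map (evalRingHom 0)).natDegree = m + 1 := by
    rw [hφ0, chtI_natDegree hm]
  have hpd : (poly F L (surf m a)).natDegree = m + 1 := by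
    rw [poly_surf, chtI_natDegree hm]
  have hchart : IsChart 2 F (poly F L (surf m a)) φ (algebraMap F[X] L X)⁻¹ 0 (T ^ N) := by
    refine ⟨Or.inr rfl, ?_, pow_ne_zero _ hT0, T ^ ((m + 1) * M), pow_ne_zero _ hT0, ?_⟩
    · intro h
      rw [h, natDegree_zero] at hφd
      omega
    · have e1 : φ.map (eval₂RingHom ((algebraMap F[X] L).comp C) (algebraMap F[X] L X)⁻¹) =
          X * ((X - C A') ^ m - C (T⁻¹ ^ (m * N - 1))) := by
        rw [hφ, Polynomial.map_mul, Polynomial.map_sub, Polynomial.map_pow, Polynomial.map_sub,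
          map_X, map_C, map_C, coe_eval₂RingHom, eval₂_pow, eval₂_X, ← hT, ← hA']
      have e2 : (T ^ ((m + 1) * M)) ^ 2 = T ^ N * (T ^ N) ^ m := by
        rw [← pow_mul, ← pow_mul, ← pow_add]
        congr 1
        rw [hM]
        ring
      have e3 : T ^ N * (T ^ N) ^ m * T⁻¹ ^ (m * N - 1) = T ^ N * T := by
        have e4 : (T ^ N) ^ m = T ^ (m * N - 1) * T := by
          rw [← pow_mul, ← pow_succ, mul_comm N m]
          congr 1
          omega
        rw [e4, inv_pow]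
        have e5 : T ^ (m * N - 1) ≠ 0 := pow_ne_zero _ hT0
        field_simp
      rw [e1, e2, poly_surf, ← hT, ← hA, ← hAA]
      rw [mul_comp, sub_comp, pow_comp, sub_comp, X_comp, C_comp, C_comp, C_0, zero_add]
      have e6 : (C (T ^ N * (T ^ N) ^ m) * C (T⁻¹ ^ (m * N - 1)) : L[X]) = C (T ^ N) * C T := by
        rw [← C_mul, e3, C_mul]
      have e7 : (C (T ^ N * (T ^ N) ^ m) : L[X]) = C (T ^ N) * C (T ^ N) ^ m := by
        rw [C_mul, ← C_pow]
      have e8 : (C (T ^ N) * X - C (A' * T ^ N) : L[X]) ^ m = C (T ^ N) ^ m * (X - C A') ^ m := by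
        rw [← mul_pow]
        congr 1
        rw [C_mul]
        ring
      rw [e8]
      linear_combination X * e6 - X * (X - C A') ^ m * e7
  obtain ⟨c, hc, hcc⟩ := hu.2 φ _ 0 (T ^ N) hchart
  have hc0 : c = 0 := hc (by rw [hφd, hpd])
  have hsurj : Function.Surjective (pi1 F L m a) := by
    intro y
    exact ⟨AdjoinRoot.mk _ (C y), by rw [pi1_mk, eval_C]⟩
  have halg : ∀ y : L, pi1 F L m a (algebraMap L (AdjoinRoot (poly F L (surf m a))) y) = y := by
    intro y
    rw [AdjoinRoot.algebraMap_eq, ← AdjoinRoot.mk_C, pi1_mk, eval_C]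
  have hroot : pi1 F L m a (AdjoinRoot.root (poly F L (surf m a))) = 0 := by
    rw [← AdjoinRoot.mk_X, pi1_mk, eval_X]
  have hcentre : IsCentre F (poly F L (surf m a)) (pi1 F L m a) O φ (algebraMap F[X] L X)⁻¹ 0 (T ^ N) 0 := by
    refine ⟨fun c => ?_, ?_, ?_, ?_⟩
    · rw [halg]
      exact hO c
    · rw [halg]
      exact hO'
    · rw [halg, halg, map_sub (pi1 F L m a), hroot, halg, C_0, map_zero,
        sub_zero, sub_zero, zero_div, map_zero]
      exact zero_lt_one
    · intro _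
      left
      rw [hφ0, C_0, sub_zero, derivative_mul, derivative_X, one_mul, eval_add, eval_mul, eval_X, zero_mul, add_zero,
        eval_pow, eval_sub, eval_X, eval_C, zero_sub]
      exact pow_ne_zero _ (neg_ne_zero.2 hl0)
  obtain ⟨v, hv⟩ := hcc L (pi1 F L m a) hsurj O 0 hcentre
  exact ⟨v, by rw [hv, hc0, zpow_zero, one_mul]⟩

end

end Pool.Agent.Lib.MP_89bcae_ag.Xm
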