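import Mathlib
import Pool.Agent.Lib.MP_89bcae_ag.Xm.Defs
import Pool.Agent.Lib.MP_89bcae_ag.Ze.Norm

/-!
# The norm to `L` and the two components
-/

open Polynomial IsDedekindDomain

open scoped Classical

namespace Pool.Agent.Lib.MP_89bcae_ag.Xm

open Pool.Agent.Lib.MP_89bcae_ag.Ze

section

variable {k F L : Type} [Field k] [Field F] [Algebra k F] [Field L] [Algebra F[X] L] [IsFractionRing F[X] L]
  {m : ℕ} [NeZero m]

lemma nrm_rot_ex {ζ : Fˣ} (hζ : ζ ^ m = 1) (x : L) : rot F L ζ (ex F L m x) = ex F L m x := by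
  have h0 : ((ζ : F)) ^ m = 1 := by rw [← Units.val_pow_eq_pow_val, hζ, Units.val_one]
  have h : (rot F L ζ).comp (ex F L m) = ex F L m := by
    refine IsLocalization.ringHom_ext (nonZeroDivisors F[X]) ?_
    refine RingHom.ext fun q => ?_
    rw [RingHom.comp_apply, RingHom.comp_apply, RingHom.comp_apply, ex_algebraMap, rot_algebraMap, expand_eq_comp_X_pow,
      comp_assoc, X_pow_comp, mul_pow, ← C_pow, h0, C_1, one_mul]
  exact congrArg (fun e : L →+* L => e x) h

/-- The norm. -/
theorem norm_rel (hm : 2 ≤ m) {ζ : Fˣ} (hζ : IsPrimitiveRoot ζ m) (a : k[X]) (u : AdjoinRoot (poly F L (surf m a))) :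
    ex F L m (Algebra.norm L u) =
      ex F L m (pi1 F L m a u) * ∏ i ∈ Finset.range m, rot F L (ζ ^ i) (pi0 F L m a u) := by
  obtain ⟨A, rfl⟩ := AdjoinRoot.mk_surjective u
  obtain ⟨ι, hι⟩ : ∃ ι : L →+* AlgebraicClosure L, ι = algebraMap L (AlgebraicClosure L) := ⟨_, rfl⟩
  let _ : Algebra L (AlgebraicClosure L) := (ι.comp (ex F L m)).toAlgebra
  have hmap : ∀ x : L, @algebraMap L (AlgebraicClosure L) _ _ ((ι.comp (ex F L m)).toAlgebra) x = ι (ex F L m x) :=
    fun x => rfl
  have hmap' : @algebraMap L (AlgebraicClosure L) _ _ ((ι.comp (ex F L m)).toAlgebra) = ι.comp (ex F L m) := rfl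
  have hmon : (poly F L (surf m a)).Monic := by
    rw [poly_surf]
    refine monic_X.mul ?_
    refine Monic.sub_of_left ((monic_X_sub_C _).pow m) ?_
    rw [degree_pow, degree_X_sub_C]
    refine lt_of_le_of_lt degree_C_le ?_
    rw [nsmul_one]
    exact_mod_cast (by omega : 0 < m)
  have h1 := norm_mk (K := AlgebraicClosure L) hmon A
  have hpow : ∀ i : ℕ, (ζ ^ i) ^ m = 1 := fun i => by
    rw [← pow_mul, mul_comm, pow_mul, hζ.pow_eq_one, one_pow]
  -- the roots
  have h3 : ι (ex F L m (algebraMap F[X] L X)) = (ι (algebraMap F[X] L X)) ^ m := by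
    rw [ex_algebraMap, expand_X, map_pow, map_pow]
  have hz : IsPrimitiveRoot ((ι.comp ((algebraMap F[X] L).comp C)) (ζ : F)) m :=
    (IsPrimitiveRoot.coe_units_iff.2 hζ).map_of_injective (RingHom.injective _)
  have h4 : (poly F L (surf m a)).map (ι.comp (ex F L m)) =
      (((0 : AlgebraicClosure L) ::ₘ ((Finset.range m).val.map fun i =>
        ι (rot F L (ζ ^ i) (algebraMap F[X] L (alF F m a))))).map fun θ => X - C θ).prod := by
    rw [poly_surf]
    simp only [Polynomial.map_mul, Polynomial.map_sub, Polynomial.map_pow, map_X, map_C, RingHom.comp_apply]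
    have e1 : algebraMap F[X] L (alF F m a) = ex F L m (algebraMap F[X] L (aF F a)) + algebraMap F[X] L X := by
      rw [ex_algebraMap, alF, map_add]
    have e2 : ∀ i : ℕ, ι (rot F L (ζ ^ i) (algebraMap F[X] L (alF F m a))) =
        ι (ex F L m (algebraMap F[X] L (aF F a))) +
          ((ι.comp ((algebraMap F[X] L).comp C)) (ζ : F)) ^ i * ι (algebraMap F[X] L X) := by
      intro i
      rw [e1, map_add, nrm_rot_ex (hpow i), rot_algebraMap, X_comp, map_mul, map_add, map_mul,
        Units.val_pow_eq_pow_val, C_pow, map_pow, map_pow, RingHom.comp_apply, RingHom.comp_apply]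
    rw [Multiset.map_cons, Multiset.prod_cons, Multiset.map_map, C_0, sub_zero, h3]
    congr 1
    have h5 := X_pow_sub_C_eq_prod hz (by omega : 0 < m) (rfl : (ι (algebraMap F[X] L X)) ^ m = _)
    have h6 := congrArg (fun q : (AlgebraicClosure L)[X] =>
      q.comp (X - C (ι (ex F L m (algebraMap F[X] L (aF F a)))))) h5
    simp only [sub_comp, X_pow_comp, C_comp, prod_comp, X_comp] at h6
    rw [h6]
    change _ = ∏ i ∈ Finset.range m, _
    refine Finset.prod_congr rfl fun i _ => ?_
    rw [Function.comp_apply, e2, C_add]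
    ring
  rw [hmap', h4, roots_multiset_prod_X_sub_C] at h1
  rw [Multiset.map_cons, Multiset.prod_cons, Multiset.map_map] at h1
  have h5 : ∀ θ : L, @aeval L (AlgebraicClosure L) _ _ ((ι.comp (ex F L m)).toAlgebra) (ι θ) A =
      ι (A.eval₂ (ex F L m) θ) := by
    intro θ
    rw [aeval_def, hmap', hom_eval₂]
  have h6 : A.eval₂ (ex F L m) 0 = ex F L m (A.eval 0) := by
    have h := eval₂_hom (p := A) (ex F L m) 0
    rwa [map_zero] at h
  have h7 : ∀ i : ℕ, A.eval₂ (ex F L m) (rot F L (ζ ^ i) (algebraMap F[X] L (alF F m a))) =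
      rot F L (ζ ^ i) (A.eval₂ (ex F L m) (algebraMap F[X] L (alF F m a))) := by
    intro i
    rw [hom_eval₂]
    congr 1
    exact RingHom.ext fun x => (nrm_rot_ex (hpow i) x).symm
  have h8 := h5 0
  rw [map_zero, h6] at h8
  have h9 : ((Finset.range m).val.map ((fun θ => @aeval L (AlgebraicClosure L) _ _ ((ι.comp (ex F L m)).toAlgebra) θ A) ∘
      fun i => ι (rot F L (ζ ^ i) (algebraMap F[X] L (alF F m a))))).prod =
      ι (∏ i ∈ Finset.range m, rot F L (ζ ^ i) (A.eval₂ (ex F L m) (algebraMap F[X] L (alF F m a)))) := by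
    rw [map_prod]
    change ∏ i ∈ Finset.range m, _ = _
    refine Finset.prod_congr rfl fun i _ => ?_
    rw [Function.comp_apply, h5, h7]
  rw [h8, h9] at h1
  rw [pi1_mk, pi0_mk]
  apply ι.injective
  rw [map_mul]
  exact h1

end

end Pool.Agent.Lib.MP_89bcae_ag.Xm
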