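import Mathlib
import Pool.Agent.Lib.MP_89bcae_ag.Xm.Defs
import Pool.Agent.Lib.MP_89bcae_ag.Xs.Ord

/-!
# The orders and the homomorphisms `t ↦ t ^ m`, `t ↦ ζ t`
-/

open Polynomial IsDedekindDomain

open scoped Classical

namespace Pool.Agent.Lib.MP_89bcae_ag.Xm

open Pool.Agent.Lib.MP_89bcae_ag.Ze

open Pool.Agent.Lib.MP_89bcae_ag.Xs (ord Or ord_mul ord_inv ord_algebraMap)

section

variable {F L : Type} [Field F] [Field L] [Algebra F[X] L] [IsFractionRing F[X] L]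

private lemma ord2_mult {r : F} {n : ℕ} {q q' : F[X]} (h : q = (X - C r) ^ n * q') (h' : q'.eval r ≠ 0) :
    q.rootMultiplicity r = n := by
  have h0 : q' ≠ 0 := by
    rintro rfl
    exact h' (eval_zero)
  rw [h, mul_comm, rootMultiplicity_mul_X_sub_C_pow h0, rootMultiplicity_eq_zero h', zero_add]

private lemma ord2_split {q : F[X]} (hq : q ≠ 0) (r : F) :
    ∃ q' : F[X], q = (X - C r) ^ q.rootMultiplicity r * q' ∧ q'.eval r ≠ 0 := by
  obtain ⟨q', h, h'⟩ := exists_eq_pow_rootMultiplicity_mul_and_not_dvd q hq r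
  exact ⟨q', h, fun h0 => h' (dvd_iff_isRoot.mpr h0)⟩

private lemma ord2_geom {m : ℕ} (hm : (m : F) ≠ 0) {r : F} (hr : r ≠ 0) :
    ∃ g : F[X], X ^ m - C (r ^ m) = (X - C r) * g ∧ g.eval r ≠ 0 := by
  have h0 : (X ^ m - C (r ^ m) : F[X]).IsRoot r := by
    rw [IsRoot.def, eval_sub, eval_pow, eval_X, eval_C, sub_self]
  obtain ⟨g, hg⟩ := dvd_iff_isRoot.mpr h0
  refine ⟨g, hg, ?_⟩
  have h1 := congrArg (fun q => (derivative q).eval r) hg
  simp only [derivative_sub, derivative_X_pow, derivative_C, sub_zero, derivative_mul, derivative_X, one_mul,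
    eval_add, eval_mul, eval_sub, eval_X, eval_C, sub_self, zero_mul, add_zero, eval_pow, eval_natCast] at h1
  rw [← h1]
  exact mul_ne_zero hm (pow_ne_zero _ hr)

private lemma ord2_expand {m : ℕ} (hm : (m : F) ≠ 0) {r : F} (hr : r ≠ 0) {q : F[X]} (hq : q ≠ 0) :
    (expand F m q).rootMultiplicity r = q.rootMultiplicity (r ^ m) := by
  obtain ⟨q', h, h'⟩ := ord2_split hq (r ^ m)
  obtain ⟨g, hg, hg'⟩ := ord2_geom hm hr
  refine ord2_mult (q' := g ^ q.rootMultiplicity (r ^ m) * expand F m q') ?_ ?_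
  · conv_lhs => rw [h]
    rw [map_mul, map_pow, map_sub, expand_X, expand_C, ← mul_assoc, ← mul_pow, hg]
  · rw [eval_mul, eval_pow, expand_eval]
    exact mul_ne_zero (pow_ne_zero _ hg') h'

private lemma ord2_expand_zero {m : ℕ} (hm : m ≠ 0) {q : F[X]} (hq : q ≠ 0) :
    (expand F m q).rootMultiplicity 0 = m * q.rootMultiplicity 0 := by
  obtain ⟨q', h, h'⟩ := ord2_split hq 0
  refine ord2_mult (q' := expand F m q') ?_ ?_
  · conv_lhs => rw [h]
    rw [map_mul, map_pow, map_sub, expand_X, expand_C, C_0, sub_zero, sub_zero, ← pow_mul]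
  · rw [expand_eval, zero_pow hm]
    exact h'

private lemma ord2_comp (ζ : Fˣ) (r : F) {q : F[X]} (hq : q ≠ 0) :
    (q.comp (C (ζ : F) * X)).rootMultiplicity r = q.rootMultiplicity ((ζ : F) * r) := by
  obtain ⟨q', h, h'⟩ := ord2_split hq ((ζ : F) * r)
  refine ord2_mult (q' := (C (ζ : F)) ^ q.rootMultiplicity ((ζ : F) * r) * q'.comp (C (ζ : F) * X)) ?_ ?_
  · conv_lhs => rw [h]
    rw [mul_comp, pow_comp, sub_comp, X_comp, C_comp, ← mul_assoc, ← mul_pow]
    congr 2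
    rw [C_mul]
    ring
  · rw [eval_mul, eval_pow, eval_C, eval_comp, eval_mul, eval_C, eval_X]
    exact mul_ne_zero (pow_ne_zero _ ζ.ne_zero) h'

private lemma ord2_div (r : F) {p q : F[X]} (hp : p ≠ 0) (hq : q ≠ 0) :
    ord r (algebraMap F[X] L p / algebraMap F[X] L q) = p.rootMultiplicity r - q.rootMultiplicity r := by
  have hp1 : algebraMap F[X] L p ≠ 0 := fun h0 => hp ((IsFractionRing.to_map_eq_zero_iff).mp h0)
  have hq1 : algebraMap F[X] L q ≠ 0 := fun h0 => hq ((IsFractionRing.to_map_eq_zero_iff).mp h0)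
  rw [div_eq_mul_inv, ord_mul r hp1 (inv_ne_zero hq1), ord_inv, ord_algebraMap r hp, ord_algebraMap r hq,
    ← sub_eq_add_neg]

private lemma ord2_zero (r : F) : ord r (0 : L) = 0 := by
  unfold ord
  rw [map_zero, WithZero.log_zero, neg_zero]

lemma ord_ex {m : ℕ} [NeZero m] (hm : (m : F) ≠ 0) {r : F} (hr : r ≠ 0) (x : L) :
    ord r (ex F L m x) = ord (r ^ m) x := by
  have hm0 : 0 < m := Nat.pos_of_ne_zero (NeZero.ne m)
  obtain ⟨p, q, hq, rfl⟩ := IsFractionRing.div_surjective (A := F[X]) x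
  have hq0 : q ≠ 0 := nonZeroDivisors.ne_zero hq
  by_cases hp0 : p = 0
  · rw [hp0, map_zero, zero_div, map_zero, ord2_zero, ord2_zero]
  rw [map_div₀, ex_algebraMap, ex_algebraMap, ord2_div r ((expand_ne_zero hm0).mpr hp0)
    ((expand_ne_zero hm0).mpr hq0), ord2_div _ hp0 hq0, ord2_expand hm hr hp0, ord2_expand hm hr hq0]

lemma ord_ex_zero (m : ℕ) [NeZero m] (x : L) : ord (0 : F) (ex F L m x) = m * ord (0 : F) x := by
  have hm0 : 0 < m := Nat.pos_of_ne_zero (NeZero.ne m)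
  obtain ⟨p, q, hq, rfl⟩ := IsFractionRing.div_surjective (A := F[X]) x
  have hq0 : q ≠ 0 := nonZeroDivisors.ne_zero hq
  by_cases hp0 : p = 0
  · rw [hp0, map_zero, zero_div, map_zero, ord2_zero, mul_zero]
  rw [map_div₀, ex_algebraMap, ex_algebraMap, ord2_div _ ((expand_ne_zero hm0).mpr hp0)
    ((expand_ne_zero hm0).mpr hq0), ord2_div _ hp0 hq0, ord2_expand_zero hm0.ne' hp0, ord2_expand_zero hm0.ne' hq0]
  push_cast
  ring

lemma ord_rot (ζ : Fˣ) (r : F) (x : L) : ord r (rot F L ζ x) = ord ((ζ : F) * r) x := by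
  obtain ⟨p, q, hq, rfl⟩ := IsFractionRing.div_surjective (A := F[X]) x
  have hq0 : q ≠ 0 := nonZeroDivisors.ne_zero hq
  have hc : ∀ {f : F[X]}, f ≠ 0 → f.comp (C (ζ : F) * X) ≠ 0 := by
    intro f hf h0
    apply hf
    apply (comp_inj (F := F) (L := L) ζ)
    rw [map_zero]
    change algebraMap F[X] L (f.comp (C (ζ : F) * X)) = 0
    rw [h0, map_zero]
  by_cases hp0 : p = 0
  · rw [hp0, map_zero, zero_div, map_zero, ord2_zero, ord2_zero]
  rw [map_div₀, rot_algebraMap, rot_algebraMap, ord2_div r (hc hp0) (hc hq0), ord2_div _ hp0 hq0, ord2_comp ζ r hp0,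
    ord2_comp ζ r hq0]

end

end Pool.Agent.Lib.MP_89bcae_ag.Xm
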