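import Mathlib
import Pool.Agent.Lib.MP_89bcae_ag.Xs.Ord
import Pool.Agent.Lib.MP_89bcae_ag.Xs.Inf
import Pool.Agent.Lib.MP_89bcae_ag.Xm.Ord2
import Pool.Agent.Lib.MP_89bcae_ag.Xm.Comp
import Pool.Agent.Lib.MP_89bcae_ag.Xm.Nrm
import Pool.Agent.Lib.MP_89bcae_ag.Xm.Cht
import Pool.Agent.Lib.MP_89bcae_ag.Xm.ChtI

/-!
# The group `unramified` and the parities of the orders
-/

open Polynomial IsDedekindDomain

open scoped Classical

namespace Pool.Agent.Lib.MP_89bcae_ag.Xm

open Pool.Agent.Lib.MP_89bcae_ag.Ze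

open Pool.Agent.Lib.MP_89bcae_ag.Xs

section

variable {F L : Type} [Field F] [Field L] [Algebra F[X] L] [IsFractionRing F[X] L]

private lemma Rk_inj : Function.Injective (algebraMap F[X] L) := IsFractionRing.injective F[X] L

private lemma Rk_ord_prod (r : F) {ι : Type} (T : Finset ι) (f : ι → L) (hf : ∀ i ∈ T, f i ≠ 0) :
    ord r (∏ i ∈ T, f i) = ∑ i ∈ T, ord r (f i) := by
  induction T using Finset.induction_on with
  | empty => rw [Finset.prod_empty, Finset.sum_empty, ord_one]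
  | insert i T hi ih =>
    rw [Finset.prod_insert hi, Finset.sum_insert hi, ord_mul r (hf i (Finset.mem_insert_self i T))
      (Finset.prod_ne_zero_iff.2 fun j hj => hf j (Finset.mem_insert_of_mem hj)),
      ih fun j hj => hf j (Finset.mem_insert_of_mem hj)]

end

section

variable {k F L : Type} [Field k] [Field F] [Algebra k F] [Field L] [Algebra F[X] L] [IsFractionRing F[X] L]
  {m : ℕ} [NeZero m]

private lemma Rk_pi0_ne {a : k[X]} (u : (AdjoinRoot (poly F L (surf m a)))ˣ) : pi0 F L m a u ≠ 0 :=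
  (u.isUnit.map (pi0 F L m a)).ne_zero

omit [NeZero m] in
private lemma Rk_pi1_ne {a : k[X]} (u : (AdjoinRoot (poly F L (surf m a)))ˣ) : pi1 F L m a u ≠ 0 :=
  (u.isUnit.map (pi1 F L m a)).ne_zero

private lemma Rk_ord (hm : 2 ≤ m) {ζ : Fˣ} (hζ : IsPrimitiveRoot ζ m) {a : k[X]}
    (u : (AdjoinRoot (poly F L (surf m a)))ˣ) (s : F) :
    ord s (ex F L m (Algebra.norm L (u : AdjoinRoot (poly F L (surf m a))))) =
      ord s (ex F L m (pi1 F L m a u)) + ∑ i ∈ Finset.range m, ord ((ζ : F) ^ i * s) (pi0 F L m a u) := by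
  have h3 : ∀ i ∈ Finset.range m, rot F L (ζ ^ i) (pi0 F L m a u) ≠ 0 := fun i _ =>
    (_root_.map_ne_zero _).2 (Rk_pi0_ne u)
  rw [norm_rel (F := F) (L := L) hm hζ a u, ord_mul s ((_root_.map_ne_zero _).2 (Rk_pi1_ne u)) (Finset.prod_ne_zero_iff.2 h3),
    Rk_ord_prod s _ _ h3]
  congr 1
  refine Finset.sum_congr rfl fun i _ => ?_
  rw [ord_rot, Units.val_pow_eq_pow_val]

private lemma Rk_rel (hmF : (m : F) ≠ 0) (hm : 2 ≤ m) {ζ : Fˣ} (hζ : IsPrimitiveRoot ζ m) {a : k[X]}
    {u : (AdjoinRoot (poly F L (surf m a)))ˣ}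
    (hN : ∃ v : L, Algebra.norm L (u : AdjoinRoot (poly F L (surf m a))) = v ^ 2) {s : F} (hs : s ≠ 0) :
    Even (ord (s ^ m) (pi1 F L m a u) + ∑ i ∈ Finset.range m, ord ((ζ : F) ^ i * s) (pi0 F L m a u)) := by
  obtain ⟨v, hv⟩ := hN
  have h := Rk_ord hm hζ u s
  rw [hv, map_pow, ord_pow, ord_ex hmF hs, ord_ex hmF hs] at h
  rw [← h]
  exact even_two_mul _

private lemma Rk_rel_zero (hm : 2 ≤ m) {ζ : Fˣ} (hζ : IsPrimitiveRoot ζ m) {a : k[X]}
    {u : (AdjoinRoot (poly F L (surf m a)))ˣ}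
    (hN : ∃ v : L, Algebra.norm L (u : AdjoinRoot (poly F L (surf m a))) = v ^ 2) :
    Even (ord (0 : F) (pi1 F L m a u) + ord (0 : F) (pi0 F L m a u)) := by
  obtain ⟨v, hv⟩ := hN
  have h := Rk_ord hm hζ u 0
  simp only [mul_zero, Finset.sum_const, Finset.card_range, nsmul_eq_mul] at h
  rw [hv, map_pow, ord_pow, ord_ex_zero, ord_ex_zero] at h
  refine ⟨ord (0 : F) v, ?_⟩
  have hm0 : (m : ℤ) ≠ 0 := by exact_mod_cast NeZero.ne m
  have h4 : (m : ℤ) * (ord (0 : F) (pi1 F L m a u) + ord (0 : F) (pi0 F L m a u)) =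
      (m : ℤ) * (ord (0 : F) v + ord (0 : F) v) := by
    push_cast at h
    linear_combination -h
  exact mul_left_cancel₀ hm0 h4

/-- The relation between the parities at a root. -/
private lemma Rk_par (hmk : (m : k) ≠ 0) (hm : 2 ≤ m) {ζ : Fˣ} (hζ : IsPrimitiveRoot ζ m) {a : k[X]}
    {u : (AdjoinRoot (poly F L (surf m a)))ˣ}
    (hu : u ∈ unramified 2 F (poly F L (surf m a))) {s : F} (hs : (alF F m a).eval s = 0) :
    Even (ord (s ^ m) (pi1 F L m a u) + ord s (pi0 F L m a u)) := by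
  have hmF : (m : F) ≠ 0 := by
    have := (map_ne_zero (algebraMap k F)).2 hmk
    rwa [map_natCast] at this
  rcases eq_or_ne s 0 with rfl | h0
  · rw [zero_pow (NeZero.ne m)]
    exact Rk_rel_zero hm hζ hu.1
  · have h1 : ∀ i ∈ Finset.range m, i ≠ 0 → Even (ord ((ζ : F) ^ i * s) (pi0 F L m a u)) := by
      intro i hi hi0
      refine even_pi0 hmk hu fun h => ?_
      have hζi : ((ζ : F) ^ i) ^ m = 1 := by
        rw [← pow_mul, mul_comm, pow_mul, ← Units.val_pow_eq_pow_val, hζ.pow_eq_one, Units.val_one, one_pow]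
      unfold alF at h hs
      rw [eval_add, eval_X, expand_eval] at h hs
      rw [mul_pow, hζi, one_mul] at h
      have h2 : ((ζ : F) ^ i - 1) * s = 0 := by linear_combination h - hs
      rcases mul_eq_zero.1 h2 with h3 | h3
      · have h4 : ζ ^ i = 1 := by
          apply Units.ext
          rw [Units.val_pow_eq_pow_val, Units.val_one]
          exact sub_eq_zero.1 h3
        exact hζ.pow_ne_one_of_pos_of_lt hi0 (Finset.mem_range.1 hi) h4
      · exact h0 h3
    have h3 := Rk_rel hmF hm hζ hu.1 h0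
    have h0m : 0 ∈ Finset.range m := Finset.mem_range.2 (by omega)
    rw [← Finset.add_sum_erase _ _ h0m, pow_zero, one_mul, ← add_assoc] at h3
    refine (Int.even_add.1 h3).2 (Finset.even_sum _ fun i hi => ?_)
    exact h1 i (Finset.mem_of_mem_erase hi) (Finset.ne_of_mem_erase hi)

end

/-! ### M8 (file `Xm/Rk.lean`): the group `unramified` -/

section

variable {k F L : Type} [Field k] [Field F] [Algebra k F] [Field L] [Algebra F[X] L] [IsFractionRing F[X] L]
  [IsAlgClosed F] {m : ℕ} [NeZero m]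

private lemma Rk_two_le (hm : (m : k) ≠ 0) (hm' : Even m) : 2 ≤ m := by
  have h1 : m ≠ 0 := NeZero.ne m
  rcases m with _ | _ | m
  · exact absurd rfl h1
  · exact absurd hm' (by decide)
  · omega

omit [IsAlgClosed F] [NeZero m] in
private lemma Rk_mem {a : k[X]} (ha : (alpha m a).Separable) (s : F) :
    s ∈ (alpha m a).rootSet F ↔ (alF F m a).eval s = 0 := by
  rw [mem_rootSet, alF_eq, eval_map_algebraMap]
  exact ⟨fun h => h.2, fun h => ⟨ha.ne_zero, h⟩⟩

theorem sum_even {a : k[X]} (hm : (m : k) ≠ 0) (hm' : Even m) (ha : a.natDegree ≠ 0) (ha' : Even a.natDegree)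
    (hs : (alpha m a).Separable) {u : (AdjoinRoot (poly F L (surf m a)))ˣ}
    (hu : u ∈ unramified 2 F (poly F L (surf m a))) :
    Even (∑ s : (alpha m a).rootSet F, ord (s : F) (pi0 F L m a u)) := by
  have hmF : (m : F) ≠ 0 := by
    have := (map_ne_zero (algebraMap k F)).2 hm
    rwa [map_natCast] at this
  have h2m := Rk_two_le hm hm'
  obtain ⟨ζ, hζ⟩ := exists_zeta hmF
  obtain ⟨O, hO, hO', h⟩ := exists_inf F L
  let T : Finset F := Finset.univ.image fun s : (alpha m a).rootSet F => (s : F) ^ m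
  have hT : ∀ r ∉ T, Even (ord r (pi1 F L m a u)) := by
    intro r hr
    refine even_pi1 hu fun h3 => hr ?_
    have h4 : -(aF F a).eval r ∈ (alpha m a).rootSet F := by
      rw [Rk_mem hs]
      unfold alF
      rw [eval_add, eval_X, expand_eval, h3, add_neg_cancel]
    exact Finset.mem_image.2 ⟨⟨_, h4⟩, Finset.mem_univ _, h3⟩
  have h5 := h (pi1 F L m a u) (Rk_pi1_ne u) T hT (inf_pi1 ha ha' hu O hO hO')
  have hinj : ∀ s ∈ (Finset.univ : Finset ((alpha m a).rootSet F)),
      ∀ s' ∈ (Finset.univ : Finset ((alpha m a).rootSet F)), (s : F) ^ m = (s' : F) ^ m → s = s' := by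
    intro s _ s' _ hss
    apply Subtype.ext
    have h7 := (Rk_mem hs _).1 s.2
    have h8 := (Rk_mem hs _).1 s'.2
    unfold alF at h7 h8
    rw [eval_add, eval_X, expand_eval] at h7 h8
    rw [hss] at h7
    linear_combination h7 - h8
  rw [Finset.sum_image hinj] at h5
  have h6 : Even (∑ s : (alpha m a).rootSet F, (ord ((s : F) ^ m) (pi1 F L m a u) + ord (s : F) (pi0 F L m a u))) :=
    Finset.even_sum _ fun s _ => Rk_par hm h2m hζ hu ((Rk_mem hs _).1 s.2)
  rw [Finset.sum_add_distrib] at h6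
  exact (Int.even_add.1 h6).1 h5

/-- A unit, the norm of which is a square and such that the orders of the value on the second component are even, is a
square. -/
private lemma Rk_sq {a : k[X]} (hm : (m : k) ≠ 0) (hm' : Even m) {u : (AdjoinRoot (poly F L (surf m a)))ˣ}
    (hN : ∃ v : L, Algebra.norm L (u : AdjoinRoot (poly F L (surf m a))) = v ^ 2)
    (h : ∀ r : F, Even (ord r (pi0 F L m a u))) : u ∈ points 2 (poly F L (surf m a)) := by
  have hmF : (m : F) ≠ 0 := by
    have := (map_ne_zero (algebraMap k F)).2 hm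
    rwa [map_natCast] at this
  have h2m := Rk_two_le hm hm'
  obtain ⟨ζ, hζ⟩ := exists_zeta hmF
  have h1 : ∀ r : F, Even (ord r (pi1 F L m a u)) := by
    intro r
    obtain ⟨s, hs⟩ := IsAlgClosed.exists_pow_nat_eq r (n := m) (by omega)
    rcases eq_or_ne s 0 with rfl | h0
    · rw [zero_pow (NeZero.ne m)] at hs
      rw [← hs]
      exact (Int.even_add.1 (Rk_rel_zero h2m hζ hN)).2 (h 0)
    · rw [← hs]
      exact (Int.even_add.1 (Rk_rel hmF h2m hζ hN h0)).2 (Finset.even_sum _ fun i _ => h _)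
  obtain ⟨y, hy⟩ := exists_sq (Rk_pi0_ne u) h
  obtain ⟨z, hz⟩ := exists_sq (Rk_pi1_ne u) h1
  obtain ⟨w, hw1, hw0⟩ := pi_surjective (F := F) (L := L) h2m a z y
  have hw : w ^ 2 = u := by
    rw [← sub_eq_zero]
    apply pi_injective h2m
    · rw [map_sub, map_pow, hw1, hz, sub_self]
    · rw [map_sub, map_pow, hw0, hy, sub_self]
  have hwu : IsUnit w := by
    have h3 : IsUnit (w ^ 2) := hw ▸ u.isUnit
    exact (isUnit_pow_iff two_ne_zero).1 h3
  refine Subgroup.subset_closure (Or.inl ⟨hwu.unit, Units.ext ?_⟩)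
  rw [Units.val_pow_eq_pow_val, IsUnit.unit_spec, hw]

/-- The point. -/
private lemma Rk_point {a : k[X]} (hm : (m : k) ≠ 0) (hm' : Even m) (hs : (alpha m a).Separable) :
    ∃ u ∈ points 2 (poly F L (surf m a)), pi0 F L m a u = algebraMap F[X] L (-(alF F m a)) ∧
      ∃ v : L, Algebra.norm L (u : AdjoinRoot (poly F L (surf m a))) = v ^ 2 := by
  have hmF : (m : F) ≠ 0 := by
    have := (map_ne_zero (algebraMap k F)).2 hm
    rwa [map_natCast] at this
  have h2m := Rk_two_le hm hm'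
  obtain ⟨ζ, hζ⟩ := exists_zeta hmF
  have hal : alF F m a ≠ 0 := by
    rw [alF_eq]
    exact (hs.map (f := algebraMap k F)).ne_zero
  let A : L := algebraMap F[X] L (aF F a)
  let T : L := algebraMap F[X] L X
  let h : L[X] := (X - C A) ^ m - C T - X
  have hp : poly F L (surf m a) = X * (h + X) := by
    rw [poly_surf]
    ring
  have hmon : h.Monic := by
    have h1 : h = (X - C A) ^ m - (C T + X) := by
      simp only [h]
      ring
    rw [h1]
    refine Monic.sub_of_left ((monic_X_sub_C _).pow m) ?_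
    rw [degree_pow, degree_X_sub_C, add_comm, degree_X_add_C, nsmul_one]
    exact_mod_cast h2m
  have hdvd : h ∣ X ^ 2 - poly F L (surf m a) := ⟨-X, by
    rw [hp]
    ring⟩
  have e1 : pi1 F L m a (AdjoinRoot.mk _ h) = algebraMap F[X] L (aF F a ^ m - X) := by
    rw [pi1_mk]
    simp only [h, eval_sub, eval_pow, eval_X, eval_C, map_sub, map_pow, A, T]
    rw [zero_sub, hm'.neg_pow, sub_zero]
  have e0 : pi0 F L m a (AdjoinRoot.mk _ h) = algebraMap F[X] L (-(alF F m a)) := by
    rw [pi0_mk]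
    simp only [h, eval₂_sub, eval₂_pow, eval₂_X, eval₂_C, A, T]
    rw [ex_algebraMap, ex_algebraMap, expand_X, alF, map_neg, map_add, map_pow, add_sub_cancel_left]
    ring
  have hζi : ∀ i : ℕ, ((ζ : F) ^ i) ^ m = 1 := fun i => by
    rw [← pow_mul, mul_comm, pow_mul, ← Units.val_pow_eq_pow_val, hζ.pow_eq_one, Units.val_one, one_pow]
  have hb : ∀ i : ℕ, (expand F m (aF F a)).comp (C (((ζ ^ i : Fˣ)) : F) * X) = expand F m (aF F a) := by
    intro i
    rw [expand_eq_comp_X_pow, comp_assoc, X_pow_comp, mul_pow, ← C_pow, Units.val_pow_eq_pow_val, hζi, C_1, one_mul]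
  have e2 : (∏ i ∈ Finset.range m, rot F L (ζ ^ i) (pi0 F L m a (AdjoinRoot.mk _ h))) =
      ex F L m (pi1 F L m a (AdjoinRoot.mk _ h)) := by
    rw [e0, e1, ex_algebraMap]
    simp only [rot_algebraMap]
    rw [← map_prod]
    congr 1
    have hz : IsPrimitiveRoot (C (ζ : F)) m :=
      (IsPrimitiveRoot.coe_units_iff.2 hζ).map_of_injective C_injective
    have h5 := X_pow_sub_C_eq_prod hz (by omega : 0 < m) (rfl : (X : F[X]) ^ m = _)
    have h6 := congrArg (eval (-(expand F m (aF F a)))) h5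
    rw [eval_sub, eval_pow, eval_X, eval_C, eval_prod, hm'.neg_pow] at h6
    rw [map_sub, map_pow, expand_X, h6]
    refine Finset.prod_congr rfl fun i _ => ?_
    rw [alF, neg_comp, add_comp, hb, X_comp, eval_sub, eval_X, eval_C, Units.val_pow_eq_pow_val, C_pow]
    ring
  have hne0 : pi0 F L m a (AdjoinRoot.mk _ h) ≠ 0 := by
    rw [e0]
    exact (map_ne_zero_iff _ Rk_inj).2 (neg_ne_zero.2 hal)
  have hne1 : pi1 F L m a (AdjoinRoot.mk _ h) ≠ 0 := by
    intro h3
    rw [h3, map_zero] at e2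
    obtain ⟨i, _, hi⟩ := Finset.prod_eq_zero_iff.1 e2
    exact (_root_.map_ne_zero _).2 hne0 hi
  obtain ⟨w, hw1, hw0⟩ := pi_surjective (F := F) (L := L) h2m a (pi1 F L m a (AdjoinRoot.mk _ h))⁻¹
    (pi0 F L m a (AdjoinRoot.mk _ h))⁻¹
  have hmul : AdjoinRoot.mk _ h * w = 1 := by
    rw [← sub_eq_zero]
    apply pi_injective h2m
    · rw [map_sub, map_mul, hw1, mul_inv_cancel₀ hne1, map_one, sub_self]
    · rw [map_sub, map_mul, hw0, mul_inv_cancel₀ hne0, map_one, sub_self]
  refine ⟨Units.mkOfMulEqOne _ w hmul, Subgroup.subset_closure (Or.inr ⟨h, X, hmon, hdvd, rfl⟩), e0, ?_⟩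
  refine ⟨pi1 F L m a (AdjoinRoot.mk _ h), ?_⟩
  have h5 := norm_rel (F := F) (L := L) h2m hζ a (AdjoinRoot.mk _ h)
  rw [e2] at h5
  apply (ex F L m).injective
  rw [map_pow, pow_two]
  exact h5

theorem mem_points {a : k[X]} (hm : (m : k) ≠ 0) (hm' : Even m) (hs : (alpha m a).Separable)
    {u : (AdjoinRoot (poly F L (surf m a)))ˣ}
    (hu : u ∈ unramified 2 F (poly F L (surf m a)))
    (h : ∀ s s' : (alpha m a).rootSet F, (Even (ord (s : F) (pi0 F L m a u)) ↔ Even (ord (s' : F) (pi0 F L m a u)))) :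
    u ∈ points 2 (poly F L (surf m a)) := by
  by_cases h1 : ∀ s : (alpha m a).rootSet F, Even (ord (s : F) (pi0 F L m a u))
  · refine Rk_sq hm hm' hu.1 fun r => ?_
    by_cases hr : (alF F m a).eval r = 0
    · exact h1 ⟨r, (Rk_mem hs r).2 hr⟩
    · exact even_pi0 hm hu hr
  · push Not at h1
    obtain ⟨s0, hs0⟩ := h1
    obtain ⟨u0, hu0, h0, v0, hv0⟩ := Rk_point (F := F) (L := L) hm hm' hs
    have hal : (alF F m a).Separable := by
      rw [alF_eq]
      exact hs.map
    have h3 : u * u0 ∈ points 2 (poly F L (surf m a)) := by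
      obtain ⟨v, hv⟩ := hu.1
      refine Rk_sq hm hm' ⟨v * v0, by rw [Units.val_mul, map_mul, hv, hv0, mul_pow]⟩ fun r => ?_
      rw [Units.val_mul, map_mul, ord_mul r (Rk_pi0_ne u) (Rk_pi0_ne u0), h0, ord_algebraMap r (neg_ne_zero.2 hal.ne_zero),
        ← count_roots, roots_neg, count_roots]
      by_cases hr : (alF F m a).eval r = 0
      · have h4 : (alF F m a).rootMultiplicity r = 1 := by
          have h5 := rootMultiplicity_le_one_of_separable hal r
          have h6 := (rootMultiplicity_pos hal.ne_zero).2 hr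
          omega
        have h5 : ¬ Even (ord r (pi0 F L m a u)) := by
          have h6 := h s0 ⟨r, (Rk_mem hs r).2 hr⟩
          exact fun h7 => hs0 (h6.2 h7)
        rw [h4, Int.even_add]
        exact iff_of_false h5 (by norm_num)
      · rw [rootMultiplicity_eq_zero hr, Nat.cast_zero, add_zero]
        exact even_pi0 hm hu hr
    have h4 := mul_mem h3 (inv_mem hu0)
    rwa [mul_assoc, mul_inv_cancel, mul_one] at h4

end

end Pool.Agent.Lib.MP_89bcae_ag.Xm
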