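import Mathlib
import Pool.Agent.Lib.MP_89bcae_ag.Xm.Rk
import Pool.Agent.Lib.MP_89bcae_ag.Xm.Gal
import Pool.Agent.Lib.MP_89bcae_ag.Xm.Bra
import Pool.Agent.Lib.MP_89bcae_ag.Xs.Ord
import Pool.Agent.Lib.MP_89bcae_ag.Xs.Nof
import Pool.Agent.Lib.MP_89bcae_ag.Ze.Gal
import Pool.Agent.Lib.MP_89bcae_ag.Ze.Fin

/-!
# The criterion for the surfaces `y ^ 2 = x ((x - a(t)) ^ m - t)`
-/

open Polynomial IsDedekindDomain

open scoped Classical

namespace Pool.Agent.Lib.MP_89bcae_ag.Xm

open Pool.Agent.Lib.MP_89bcae_ag.Ze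

open Pool.Agent.Lib.MP_89bcae_ag.Xs (ord Or ord_mul Cst heart_irreducible card_heart no_lift_four)

section

variable {k F L : Type} [Field k] [Field F] [Algebra k F] [Field L] [Algebra F[X] L] [IsFractionRing F[X] L]
  {m : ℕ} [NeZero m]

lemma natDegree_alpha {a : k[X]} (ha : 8 ≤ m * a.natDegree) : (alpha m a).natDegree = m * a.natDegree := by
  have h1 : (a.comp (X ^ m)).natDegree = m * a.natDegree := by
    rw [natDegree_comp, natDegree_X_pow, mul_comm]
  unfold alpha
  rw [natDegree_add_eq_left_of_natDegree_lt, h1]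
  rw [h1, natDegree_X]
  omega

/-- The number of the nodes. -/
lemma card_rootSet [IsAlgClosed F] {a : k[X]} (ha : 8 ≤ m * a.natDegree) (hs : (alpha m a).Separable) :
    Fintype.card ((alpha m a).rootSet F) = m * a.natDegree := by
  rw [← natDegree_alpha ha]
  exact card_rootSet_eq_natDegree hs (IsAlgClosed.splits _)

/-- The parities of the orders at the nodes. -/
noncomputable def par (a : k[X]) (u : (AdjoinRoot (poly F L (surf m a)))ˣ) (s : (alpha m a).rootSet F) : ZMod 2 :=
  ((ord (s : F) (pi0 F L m a u) : ℤ) : ZMod 2)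

lemma cast_eq_zero {m : ℤ} : ((m : ℤ) : ZMod 2) = 0 ↔ Even m := by
  rw [ZMod.intCast_zmod_eq_zero_iff_dvd, even_iff_two_dvd]
  rfl

lemma cast_eq_cast {m n : ℤ} : ((m : ℤ) : ZMod 2) = n ↔ (Even m ↔ Even n) := by
  rw [← sub_eq_zero, ← Int.cast_sub, cast_eq_zero, Int.even_sub]

lemma pi0_unit_ne_zero (a : k[X]) (u : (AdjoinRoot (poly F L (surf m a)))ˣ) : pi0 F L m a u ≠ 0 :=
  (u.isUnit.map (pi0 F L m a)).ne_zero

lemma par_mul (a : k[X]) (u v : (AdjoinRoot (poly F L (surf m a)))ˣ) : par a (u * v) = par a u + par a v := by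
  funext s
  show ((ord (s : F) (pi0 F L m a ((u * v : (AdjoinRoot (poly F L (surf m a)))ˣ) : AdjoinRoot _)) : ℤ) : ZMod 2) = _
  rw [Units.val_mul, map_mul, ord_mul _ (pi0_unit_ne_zero a u) (pi0_unit_ne_zero a v), Int.cast_add]
  rfl

lemma par_one (a : k[X]) : par a (1 : (AdjoinRoot (poly F L (surf m a)))ˣ) = 0 := by
  have h := par_mul a (1 : (AdjoinRoot (poly F L (surf m a)))ˣ) 1
  rw [mul_one] at h
  exact left_eq_add.1 h

lemma par_div (a : k[X]) (u v : (AdjoinRoot (poly F L (surf m a)))ˣ) : par a (u / v) = par a u - par a v := by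
  have h := par_mul a (u / v) v
  rw [div_mul_cancel] at h
  rw [h, add_sub_cancel_right]

lemma par_inv (a : k[X]) (u : (AdjoinRoot (poly F L (surf m a)))ˣ) : par a u⁻¹ = -par a u := by
  have h := par_div a 1 u
  rwa [one_div, par_one, zero_sub] at h

variable [IsAlgClosed F]

lemma par_sum {a : k[X]} (hE : IsExample F m a) {u : (AdjoinRoot (poly F L (surf m a)))ˣ}
    (hu : u ∈ unramified 2 F (poly F L (surf m a))) : ∑ s, par a u s = 0 := by
  have h := sum_even hE.cast_ne_zero hE.even_m hE.natDegree_ne_zero hE.even hE.separable hu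
  unfold par
  rw [← Int.cast_sum]
  exact cast_eq_zero.2 h

lemma mem_points_of_par {a : k[X]} (hE : IsExample F m a) {u : (AdjoinRoot (poly F L (surf m a)))ˣ}
    (hu : u ∈ unramified 2 F (poly F L (surf m a))) (h : par a u ∈ Cst ((alpha m a).rootSet F)) :
    u ∈ points 2 (poly F L (surf m a)) := by
  obtain ⟨c, hc⟩ := h
  refine mem_points hE.cast_ne_zero hE.even_m hE.separable hu fun s s' => cast_eq_cast.1 ?_
  exact (hc s).trans (hc s').symm

private lemma mem_alternating {X : Type} [Fintype X] {d d' : DecidableEq X} {g : Equiv.Perm X}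
    (hg : g ∈ @alternatingGroup X _ d) : g ∈ @alternatingGroup X _ d' := by
  have h : d = d' := Subsingleton.elim d d'
  rw [← h]
  exact hg

lemma exists_par_galois {a : k[X]} (hE : IsExample F m a) {d : DecidableEq ((alpha m a).rootSet F)}
    {g : Equiv.Perm ((alpha m a).rootSet F)} (hg : g ∈ @alternatingGroup ((alpha m a).rootSet F) _ d) :
    ∃ γ ∈ galois 2 k F (poly F L (surf m a)), ∀ u : (AdjoinRoot (poly F L (surf m a)))ˣ,
      par a (Units.map ((γ : AdjoinRoot (poly F L (surf m a)) ≃+* AdjoinRoot (poly F L (surf m a))) :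
        AdjoinRoot (poly F L (surf m a)) →* AdjoinRoot (poly F L (surf m a))) u) = fun s => par a u (g⁻¹ s) := by
  obtain ⟨σ, hσ⟩ := hE.galois g (mem_alternating hg)
  obtain ⟨γ, hγ, h⟩ := exists_galois (L := L) (m := m) a σ
  refine ⟨γ, hγ, fun u => ?_⟩
  funext s
  have h1 := h u ((g⁻¹ s : (alpha m a).rootSet F) : F)
  have h2 : g (g⁻¹ s) = s := g.apply_symm_apply s
  rw [hσ, h2] at h1
  exact congrArg (fun m : ℤ => (m : ZMod 2)) h1

lemma const_comp {X : Type} {f : X → ZMod 2} (hf : f ∈ Cst X) (g : X → X) : (fun x => f (g x)) ∈ Cst X := by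
  obtain ⟨c, hc⟩ := hf
  exact ⟨c, fun x => hc _⟩

/-- The image of a stable group. -/
lemma all_par {a : k[X]} (hE : IsExample F m a) {N : Subgroup (AdjoinRoot (poly F L (surf m a)))ˣ}
    (hNU : N ≤ unramified 2 F (poly F L (surf m a)))
    (hst : ∀ γ ∈ galois 2 k F (poly F L (surf m a)), ∀ u ∈ N,
      Units.map ((γ : AdjoinRoot (poly F L (surf m a)) ≃+* AdjoinRoot (poly F L (surf m a))) :
        AdjoinRoot (poly F L (surf m a)) →* AdjoinRoot (poly F L (surf m a))) u ∈ N)
    {u : (AdjoinRoot (poly F L (surf m a)))ˣ} (hu : u ∈ N) (hu' : par a u ∉ Cst ((alpha m a).rootSet F))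
    (f : (alpha m a).rootSet F → ZMod 2) (hf : ∑ s, f s = 0) : ∃ v ∈ N, par a v = f := by
  have h4 : 8 ≤ m * a.natDegree := hE.eight_le
  have hcard := card_rootSet (F := F) h4 hE.separable
  let M : AddSubgroup ((alpha m a).rootSet F → ZMod 2) :=
    { carrier := {f | ∃ v ∈ N, par a v = f}
      zero_mem' := ⟨1, N.one_mem, par_one a⟩
      add_mem' := by
        rintro f g ⟨v, hv, rfl⟩ ⟨w, hw, rfl⟩
        exact ⟨v * w, N.mul_mem hv hw, par_mul a v w⟩
      neg_mem' := by
        rintro f ⟨v, hv, rfl⟩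
        exact ⟨v⁻¹, N.inv_mem hv, par_inv a v⟩ }
  refine heart_irreducible (by rw [hcard]; omega) (by rw [hcard]; exact hE.even.mul_left _) M ?_ ?_
    (f := par a u) ⟨u, hu, rfl⟩ hu' f hf
  · rintro f ⟨v, hv, rfl⟩
    exact par_sum hE (hNU hv)
  · rintro g hg f ⟨v, hv, rfl⟩
    obtain ⟨γ, hγ, h⟩ := exists_par_galois (L := L) hE hg
    exact ⟨_, hst γ hγ v hv, h v⟩

lemma isFixed_surf (a : k[X]) : IsFixed k F (poly F L (surf m a)) := fun σ => poly_map _ σ

theorem isRigid_surf {a : k[X]} (hE : IsExample F m a) :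
    IsRigid 2 (galois 2 k F (poly F L (surf m a))) (unramified 2 F (poly F L (surf m a)))
      (points 2 (poly F L (surf m a))) := by
  have hB : IsBranch 2 F L (surf m a) := isBranch_surf hE.cast_ne_zero hE.even_m a
  have hd : (poly F L (surf m a)).degree ≠ 0 := hB.degree_ne_zero Nat.prime_two
  have h4 : 8 ≤ m * a.natDegree := hE.eight_le
  have hcard := card_rootSet (F := F) h4 hE.separable
  intro N hVN hNU hst r _
  refine Or.inr (Or.inr ?_)
  rintro ⟨n, σ, Γ, π, hL⟩
  have hVU : points 2 (poly F L (surf m a)) ≤ unramified 2 F (poly F L (surf m a)) := hVN.le.trans hNU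
  have hVst : ∀ γ ∈ galois 2 k F (poly F L (surf m a)), ∀ u ∈ points 2 (poly F L (surf m a)),
      Units.map ((γ : AdjoinRoot (poly F L (surf m a)) ≃+* AdjoinRoot (poly F L (surf m a))) :
        AdjoinRoot (poly F L (surf m a)) →* AdjoinRoot (poly F L (surf m a))) u ∈ points 2 (poly F L (surf m a)) :=
    fun γ hγ u hu => points_stable (isFixed_surf a) hd hγ hu
  -- an element of `N` with the same parities as an element of `V` is in `V`
  have hsame : ∀ u ∈ N, ∀ v ∈ points 2 (poly F L (surf m a)), par a u - par a v ∈ Cst ((alpha m a).rootSet F) →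
      u ∈ points 2 (poly F L (surf m a)) := by
    intro u hu v hv h
    rw [← par_div] at h
    have h1 := mem_points_of_par hE (Subgroup.div_mem _ (hNU hu) (hVU hv)) h
    have h2 := Subgroup.mul_mem _ h1 hv
    rwa [div_mul_cancel] at h2
  -- the parities of the elements of `V` are constant
  have hV : ∀ v ∈ points 2 (poly F L (surf m a)), par a v ∈ Cst ((alpha m a).rootSet F) := by
    intro v hv
    by_contra hv'
    refine hVN.not_ge fun u hu => ?_
    obtain ⟨w, hw, hwu⟩ := all_par hE hVU hVst hv hv' (par a u) (par_sum hE (hNU hu))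
    exact hsame u hu w hw (by rw [hwu, sub_self]; exact (Cst _).zero_mem)
  -- all the parities are attained in `N`
  obtain ⟨u₀, hu₀, hu₀'⟩ := SetLike.exists_of_lt hVN
  have hu₀c : par a u₀ ∉ Cst ((alpha m a).rootSet F) := fun h => hu₀' (mem_points_of_par hE (hNU hu₀) h)
  have hN : ∀ f : (alpha m a).rootSet F → ZMod 2, ∑ s, f s = 0 → ∃ v ∈ N, par a v = f :=
    fun f hf => all_par hE hNU hst hu₀ hu₀c f hf
  have hπN : ∀ v, π v ∈ N := fun v => (hL.range _).2 ⟨v, by rw [div_self']; exact Subgroup.one_mem _⟩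
  -- the homomorphism to the heart
  let p : (Fin n → ℤ_[2]) →+ ((alpha m a).rootSet F → ZMod 2) ⧸ Cst ((alpha m a).rootSet F) :=
    AddMonoidHom.mk' (fun v => QuotientAddGroup.mk (par a (π v))) fun v w => by
      rw [← QuotientAddGroup.mk_add, ← par_mul, eq_comm, QuotientAddGroup.eq, ← par_inv, ← par_mul, mul_comm,
        ← div_eq_mul_inv]
      exact hV _ (hL.add v w)
  have hp : ∀ v, p v = QuotientAddGroup.mk (par a (π v)) := fun _ => rfl
  have hσ : ∀ w, σ w = -w := by
    intro w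
    have h1 := congrArg (fun A : Module.End ℤ_[2] (Fin n → ℤ_[2]) => A w) hL.cyclotomic
    rw [Finset.sum_range_succ, Finset.sum_range_one, pow_zero, pow_one] at h1
    have h2 : w + σ w = 0 := h1
    exact (neg_eq_of_add_eq_zero_right h2).symm
  have hfin : Finite Γ := hL.finite
  refine no_lift_four (X := (alpha m a).rootSet F) (by rw [hcard]; exact Nat.mul_dvd_mul (even_iff_two_dvd.1 hE.even_m) (even_iff_two_dvd.1 hE.even))
    (by rw [hcard]; omega) Γ p ?_ ?_ ?_
  · intro v
    rw [hp, QuotientAddGroup.eq_zero_iff]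
    constructor
    · intro h
      obtain ⟨w, hw⟩ := (hL.kernel v).1 (mem_points_of_par hE (hNU (hπN v)) h)
      exact ⟨w, by rw [hw, hσ, sub_neg_eq_add]⟩
    · rintro ⟨w, hw⟩
      exact hV _ ((hL.kernel v).2 ⟨w, by rw [hσ, sub_neg_eq_add, hw]⟩)
  · intro y
    constructor
    · rintro ⟨v, rfl⟩
      exact ⟨_, par_sum hE (hNU (hπN v)), rfl⟩
    · rintro ⟨f, hf, rfl⟩
      obtain ⟨u, hu, rfl⟩ := hN f hf
      obtain ⟨v, hv⟩ := (hL.range u).1 hu
      refine ⟨v, ?_⟩
      rw [hp, QuotientAddGroup.eq, neg_add_eq_sub, ← par_div]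
      exact hV _ hv
  · intro g hg
    obtain ⟨γ, hγ, h⟩ := exists_par_galois (L := L) hE hg
    obtain ⟨g', hg', h'⟩ := hL.lift γ hγ
    refine ⟨g', hg', fun v f hv => ?_⟩
    rw [hp, QuotientAddGroup.eq, neg_add_eq_sub] at hv
    rw [hp, QuotientAddGroup.eq, neg_add_eq_sub]
    have h1 := hV _ (h' v)
    rw [par_div, h] at h1
    have h2 := const_comp hv fun s => g⁻¹ s
    have h3 := (Cst ((alpha m a).rootSet F)).add_mem h1 h2
    refine Eq.mp (congrArg (· ∈ Cst ((alpha m a).rootSet F)) ?_) h3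
    funext s
    show par a (π v) (g⁻¹ s) - par a (π (g' v)) s + (f (g⁻¹ s) - par a (π v) (g⁻¹ s)) = f (g⁻¹ s) - par a (π (g' v)) s
    ring

end

end Pool.Agent.Lib.MP_89bcae_ag.Xm
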