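import Mathlib
import Pool.Agent.Lib.MP_89bcae_ag.Xs.Amp
import Pool.Agent.Lib.MP_89bcae_ag.Xm.Rig
import Pool.Agent.Lib.MP_89bcae_ag.Zt.MainE

/-!
# The surfaces `y ^ 2 = x ((x - a(t)) ^ m - t)` with the full symmetric group
-/

open Polynomial IsDedekindDomain

open scoped Classical

namespace Pool.Agent.Lib.MP_89bcae_ag.Xm

open Pool.Agent.Lib.MP_89bcae_ag.Ze

open Pool.Agent.Lib.MP_89bcae_ag.Zt (IsAmpleE)

open Pool.Agent.Lib.MP_89bcae_ag.Xs (Cst)

section

variable {k F L : Type} [Field k] [Field F] [Algebra k F] [Field L] [Algebra F[X] L] [IsFractionRing F[X] L]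
  [IsAlgClosed F] {m : ℕ} [NeZero m]

/-- The groups of endomorphisms of the stable subgroups of `unramified / points` contain injective ones. -/
theorem isAmple_surf {a : k[X]} (hE : IsExample F m a)
    (hS : ∀ g : Equiv.Perm ((alpha m a).rootSet F), ∃ σ : F ≃ₐ[k] F, ∀ s : (alpha m a).rootSet F, σ (s : F) = g s)
    (hVU : points 2 (poly F L (surf m a)) ≤ unramified 2 F (poly F L (surf m a))) :
    IsAmpleE (galois 2 k F (poly F L (surf m a))) (unramified 2 F (poly F L (surf m a)))
      (points 2 (poly F L (surf m a))) := by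
  intro hG
  have h4 : 8 ≤ m * a.natDegree := hE.eight_le
  have hcard := card_rootSet (F := F) hE.eight_le hE.separable
  -- the class is determined by the parities
  have hcls : ∀ u ∈ unramified 2 F (poly F L (surf m a)), ∀ v ∈ unramified 2 F (poly F L (surf m a)),
      par a u - par a v ∈ Cst ((alpha m a).rootSet F) →
      (QuotientGroup.mk u : (AdjoinRoot (poly F L (surf m a)))ˣ ⧸ points 2 (poly F L (surf m a))) = QuotientGroup.mk v := by
    intro u hu v hv h
    rw [← par_div] at h
    rw [QuotientGroup.eq_iff_div_mem]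
    exact mem_points_of_par hE (Subgroup.div_mem _ hu hv) h
  -- the action of the permutations
  have hperm : ∀ g : Equiv.Perm ((alpha m a).rootSet F), ∃ γ : galois 2 k F (poly F L (surf m a)),
      ∀ u : (AdjoinRoot (poly F L (surf m a)))ˣ,
        par a (Units.map (((γ : AdjoinRoot (poly F L (surf m a)) ≃+* AdjoinRoot (poly F L (surf m a)))) :
          AdjoinRoot (poly F L (surf m a)) →* AdjoinRoot (poly F L (surf m a))) u) = fun s => par a u (g⁻¹ s) := by
    intro g
    obtain ⟨σ, hσ⟩ := hS g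
    obtain ⟨γ, hγ, h⟩ := exists_galois (L := L) (m := m) a σ
    refine ⟨⟨γ, hγ⟩, fun u => ?_⟩
    funext s
    have h1 := h u ((g⁻¹ s : (alpha m a).rootSet F) : F)
    have h2 : g (g⁻¹ s) = s := g.apply_symm_apply s
    rw [hσ, h2] at h1
    exact congrArg (fun i : ℤ => (i : ZMod 2)) h1
  -- the functions
  let φ : Subgroup (AdjoinRoot (poly F L (surf m a)))ˣ → ((alpha m a).rootSet F → ZMod 2) →
      Additive ((AdjoinRoot (poly F L (surf m a)))ˣ ⧸ points 2 (poly F L (surf m a))) := fun N f =>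
    if h : ∃ u ∈ N, par a u = f then Additive.ofMul (QuotientGroup.mk (Classical.choose h)) else 0
  have hφ : ∀ N ≤ unramified 2 F (poly F L (surf m a)), ∀ u ∈ N, φ N (par a u) = Additive.ofMul (QuotientGroup.mk u) := by
    intro N hN u hu
    have h : ∃ v ∈ N, par a v = par a u := ⟨u, hu, rfl⟩
    have h1 := Classical.choose_spec h
    have h2 : φ N (par a u) = Additive.ofMul (QuotientGroup.mk (Classical.choose h)) := dif_pos h
    rw [h2]
    refine congrArg Additive.ofMul (hcls _ (hN h1.1) _ (hN hu) ?_)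
    rw [h1.2, sub_self]
    exact (Cst _).zero_mem
  refine @ZInj.Ample.mk (galois 2 k F (poly F L (surf m a)))
    (Additive ((AdjoinRoot (poly F L (surf m a)))ˣ ⧸ points 2 (poly F L (surf m a)))) _ _ (actV _ hG)
    (quo (points 2 (poly F L (surf m a))) (unramified 2 F (poly F L (surf m a)))) ?_ fun N hNU hN A hne hA => ?_
  · have h1 : ((quo (points 2 (poly F L (surf m a))) (unramified 2 F (poly F L (surf m a))) :
        AddSubgroup (Additive ((AdjoinRoot (poly F L (surf m a)))ˣ ⧸ points 2 (poly F L (surf m a))))) : Set _) ⊆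
        Set.range (φ (unramified 2 F (poly F L (surf m a)))) := by
      rintro _ ⟨u, hu, rfl⟩
      exact ⟨par a u, hφ _ le_rfl u hu⟩
    exact (Set.finite_range _).subset h1
  -- the preimage of `N`
  let N' : Subgroup (AdjoinRoot (poly F L (surf m a)))ˣ :=
    (AddSubgroup.toSubgroup N).comap (QuotientGroup.mk' (points 2 (poly F L (surf m a))))
  have hN' : ∀ u, u ∈ N' ↔ Additive.ofMul (QuotientGroup.mk u) ∈ N := fun u => Iff.rfl
  have hN'U : N' ≤ unramified 2 F (poly F L (surf m a)) := by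
    intro u hu
    obtain ⟨v, hv, hvu⟩ := hNU ((hN' u).1 hu)
    have h1 : (QuotientGroup.mk v : (AdjoinRoot (poly F L (surf m a)))ˣ ⧸ points 2 (poly F L (surf m a))) =
        QuotientGroup.mk u := hvu
    rw [QuotientGroup.eq_iff_div_mem] at h1
    have h2 := Subgroup.mul_mem _ (Subgroup.inv_mem _ (hVU h1)) hv
    rwa [inv_div, div_mul_cancel] at h2
  have hst : ∀ γ ∈ galois 2 k F (poly F L (surf m a)), ∀ u ∈ N',
      Units.map ((γ : AdjoinRoot (poly F L (surf m a)) ≃+* AdjoinRoot (poly F L (surf m a))) :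
        AdjoinRoot (poly F L (surf m a)) →* AdjoinRoot (poly F L (surf m a))) u ∈ N' :=
    fun γ hγ u hu => hN ⟨γ, hγ⟩ _ hu
  have hne' := ZInj.ne_bot_of N A hne
  -- all the parities are attained
  have hall : ∀ f : (alpha m a).rootSet F → ZMod 2, ∑ s, f s = 0 → ∃ v ∈ N', par a v = f := by
    obtain ⟨⟨x, hx⟩, hx0⟩ := AddSubgroup.ne_bot_iff_exists_ne_zero.1 hne'
    obtain ⟨u, hu⟩ := QuotientGroup.mk_surjective x.toMul
    have h1 : x = Additive.ofMul (QuotientGroup.mk u) := (congrArg Additive.ofMul hu).symm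
    have h2 : u ∈ N' := by
      rw [hN', ← h1]
      exact hx
    refine fun f hf => all_par hE hN'U hst h2 (fun h3 => ?_) f hf
    have h4 := mem_points_of_par hE (hN'U h2) h3
    rw [← QuotientGroup.eq_one_iff] at h4
    apply hx0
    apply Subtype.ext
    change x = 0
    rw [h1, h4]
    rfl
  let _ : DistribMulAction (galois 2 k F (poly F L (surf m a)))
    (Additive ((AdjoinRoot (poly F L (surf m a)))ˣ ⧸ points 2 (poly F L (surf m a)))) := actV _ hG
  have hgen : ∀ g : Equiv.Perm ((alpha m a).rootSet F), ∃ γ : galois 2 k F (poly F L (surf m a)),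
      ∀ f ∈ Xs.Amp.S0 ((alpha m a).rootSet F), γ • φ N' f = φ N' (f ∘ g) := by
    intro g
    obtain ⟨γ, hγ⟩ := hperm g⁻¹
    refine ⟨γ, fun f hf => ?_⟩
    obtain ⟨u, hu, rfl⟩ := hall f hf
    have h1 := hγ u
    rw [inv_inv] at h1
    have h2 : par a u ∘ g = fun s => par a u (g s) := rfl
    rw [h2, ← h1, hφ N' hN'U _ (hst _ γ.2 u hu), hφ N' hN'U _ hu]
    rfl
  have hamp : @ZInj.Ample (galois 2 k F (poly F L (surf m a)))
      (Additive ((AdjoinRoot (poly F L (surf m a)))ˣ ⧸ points 2 (poly F L (surf m a)))) _ _ (actV _ hG) N := by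
    refine @Xs.Amp.ample_of_perm ((alpha m a).rootSet F) _ (galois 2 k F (poly F L (surf m a)))
      (Additive ((AdjoinRoot (poly F L (surf m a)))ˣ ⧸ points 2 (poly F L (surf m a)))) _ _ (actV _ hG)
      (by rw [hcard]; omega) (by rw [hcard]; exact hE.even_m.mul_right _) N (φ N') ?_ ?_ ?_ ?_ ?_
    · intro f hf g hg
      obtain ⟨u, hu, rfl⟩ := hall f hf
      obtain ⟨v, hv, rfl⟩ := hall g hg
      rw [← par_mul, hφ N' hN'U _ (Subgroup.mul_mem _ hu hv), hφ N' hN'U _ hu, hφ N' hN'U _ hv]
      rfl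
    · intro f hf
      obtain ⟨u, hu, rfl⟩ := hall f hf
      rw [hφ N' hN'U _ hu]
      exact hu
    · intro x hx
      obtain ⟨u, hu⟩ := QuotientGroup.mk_surjective x.toMul
      have h1 : x = Additive.ofMul (QuotientGroup.mk u) := (congrArg Additive.ofMul hu).symm
      have h2 : u ∈ N' := by
        rw [hN', ← h1]
        exact hx
      exact ⟨par a u, par_sum hE (hN'U h2), by rw [hφ N' hN'U _ h2, h1]⟩
    · obtain ⟨u, hu, h1⟩ := hall 1 (by
        simp only [Pi.one_apply, Finset.sum_const, Finset.card_univ, nsmul_eq_mul, mul_one]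
        rw [ZMod.natCast_eq_zero_iff, hcard]
        exact (hE.even_m.mul_right _).two_dvd)
      rw [← h1, hφ N' hN'U _ hu]
      have h2 := mem_points_of_par hE (hN'U hu) (by rw [h1]; exact ⟨1, fun _ => rfl⟩)
      rw [← QuotientGroup.eq_one_iff] at h2
      rw [h2]
      rfl
    · intro i j _
      exact hgen _
  exact @ZInj.Ample.inj (galois 2 k F (poly F L (surf m a)))
    (Additive ((AdjoinRoot (poly F L (surf m a)))ˣ ⧸ points 2 (poly F L (surf m a)))) _ _ (actV _ hG) N hamp N le_rfl hN A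
    hne hA

end

end Pool.Agent.Lib.MP_89bcae_ag.Xm
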