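import Mathlib
import Pool.Agent.Lib.MP_89bcae_ag.Xm.Defs
import Pool.Agent.Lib.MP_89bcae_ag.Xs.Sel

/-!
# The examples over `ℚ`
-/

open Polynomial

open scoped Classical

namespace Pool.Agent.Lib.MP_89bcae_ag.Xm

open Pool.Agent.Lib.MP_89bcae_ag.Xs (selmer_gal)

lemma alpha_rat (m d : ℕ) : alpha m (1 - X ^ d : ℚ[X]) = -(X ^ (m * d) - X - 1) := by
  unfold alpha
  rw [sub_comp, one_comp, pow_comp, X_comp, ← pow_mul]
  ring

lemma rootSet_alpha_rat (F : Type) [Field F] [Algebra ℚ F] (m d : ℕ) :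
    (alpha m (1 - X ^ d : ℚ[X])).rootSet F = (X ^ (m * d) - X - 1 : ℚ[X]).rootSet F := by
  rw [alpha_rat, rootSet_neg]

/-- The Galois group is the whole symmetric group. -/
theorem full_rat {F : Type} [Field F] [Algebra ℚ F] [IsAlgClosure ℚ F] {m d : ℕ} (hd : 8 ≤ m * d)
    (g : Equiv.Perm ((alpha m (1 - X ^ d : ℚ[X])).rootSet F)) :
    ∃ σ : F ≃ₐ[ℚ] F, ∀ s : (alpha m (1 - X ^ d : ℚ[X])).rootSet F, σ (s : F) = g s := by
  have key : ∀ (T : Set F), T = (X ^ (m * d) - X - 1 : ℚ[X]).rootSet F → ∀ g : Equiv.Perm T,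
      ∃ σ : F ≃ₐ[ℚ] F, ∀ s : T, σ (s : F) = g s := by
    rintro _ rfl g
    exact selmer_gal (by omega) g
  exact key _ (rootSet_alpha_rat F m d) g

/-- The examples over `ℚ`. -/
theorem isExample_rat {F : Type} [Field F] [Algebra ℚ F] [IsAlgClosure ℚ F] {m d : ℕ} (hm : Even m) (hd : Even d)
    (h : 8 ≤ m * d) : IsExample F m (1 - X ^ d : ℚ[X]) := by
  have hm0 : m ≠ 0 := by
    rintro rfl
    omega
  have hd0 : d ≠ 0 := by
    rintro rfl
    omega
  have hdeg : (1 - X ^ d : ℚ[X]).natDegree = d := by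
    rw [natDegree_sub_eq_right_of_natDegree_lt, natDegree_X_pow]
    rw [natDegree_one, natDegree_X_pow]
    omega
  refine ⟨Nat.cast_ne_zero.2 hm0, hm, by rwa [hdeg], by rwa [hdeg], ?_, fun g _ => full_rat h g⟩
  rw [alpha_rat]
  have hirr : Irreducible (X ^ (m * d) - X - 1 : ℚ[X]) := X_pow_sub_X_sub_one_irreducible_rat (by omega)
  exact (Associated.neg_right (Associated.refl _)).separable hirr.separable

end Pool.Agent.Lib.MP_89bcae_ag.Xm
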