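import Mathlib
import Pool.Agent.Lib.MP_89bcae_ag.Xm.AmpS
import Pool.Agent.Lib.MP_89bcae_ag.Zt.FinE

/-!
# The Brauer classes of the surfaces `y ^ 2 = x ((x - a(t)) ^ m - t)`
-/

open Polynomial

namespace Pool.Agent.Lib.MP_89bcae_ag.Xm

open Pool.Agent.Lib.MP_89bcae_ag.Ze Pool.Agent.Lib.MP_89bcae_ag.Bra

open Pool.Agent.Lib.MP_89bcae_ag.Zs (IsCoverField)

open Pool.Agent.Lib.MP_89bcae_ag.Zt (BrauerInvariantsTrivialOne one_of_ample)

lemma admissible_of_rigid {ℓ : ℕ} [Fact ℓ.Prime] {R : Type} [CommRing R] {G : Subgroup (R ≃+* R)} {U V : Subgroup Rˣ}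
    (h : IsRigid ℓ G U V) : IsAdmissible ℓ G U V := by
  intro N h1 h2 h3 r hr
  rcases h N h1 h2 h3 r hr with h4 | h4 | h4
  · exact Or.inl h4
  · exact Or.inr (Or.inl h4)
  · exact Or.inr (Or.inr (Or.inr h4))

/-- No Brauer class is invariant. -/
theorem brauer_surf {k F : Type} [Field k] [Field F] [Algebra k F] [IsAlgClosure k F] {m : ℕ} {a : k[X]}
    (hE : IsExample F m a)
    (K S : Type) [Field K] [Algebra F K] [Field S] [Algebra K S] [IsAlgClosure K S] (t x y : K)
    (h : IsCoverField 2 F (surf m a) t x y) (k' : IntermediateField k F) (hk' : FiniteDimensional k k') :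
    BrauerInvariantsTrivial 2 S k' t x y := by
  have : IsAlgClosed F := IsAlgClosure.isAlgClosed k
  have : NeZero m := ⟨by have := hE.two_le; omega⟩
  exact brauer_of_rigid (ℓ := 2) (by exact_mod_cast hE.two_ne_zero) (isBranch_surf hE.cast_ne_zero hE.even_m a) rfl
    (admissible_of_rigid (isRigid_surf hE)) K S t x y h k' hk'

/-- If the Galois group is the full symmetric group, no Brauer class is fixed by a power of one automorphism. -/
theorem brauer_surf_one {k F : Type} [Field k] [Field F] [Algebra k F] [IsAlgClosure k F] {m : ℕ} {a : k[X]}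
    (hE : IsExample F m a)
    (hS : ∀ g : Equiv.Perm ((alpha m a).rootSet F), ∃ σ : F ≃ₐ[k] F, ∀ s : (alpha m a).rootSet F, σ (s : F) = g s)
    (K S : Type) [Field K] [Algebra F K] [Field S] [Algebra K S] [IsAlgClosure K S] (t x y : K)
    (h : IsCoverField 2 F (surf m a) t x y) : BrauerInvariantsTrivialOne 2 k F S t x y := by
  have : IsAlgClosed F := IsAlgClosure.isAlgClosed k
  have : NeZero m := ⟨by have := hE.two_le; omega⟩
  exact one_of_ample (ℓ := 2) (by exact_mod_cast hE.two_ne_zero) (isBranch_surf hE.cast_ne_zero hE.even_m a) rfl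
    (fun hVU => ⟨isRigid_surf hE, isAmple_surf hE hS hVU⟩) K S t x y h

end Pool.Agent.Lib.MP_89bcae_ag.Xm
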